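import Pool.Agent.MarkusYamabe.Cell

open Set Filter Topology MeasureTheory intervalIntegral

namespace Pool.Agent.MarkusYamabe

variable {G : Type*} [NormedAddCommGroup G] [NormedSpace ℝ G] [CompleteSpace G]

theorem continuous_average {F : ℝ → ℝ → G} (hF : Continuous (Function.uncurry F)) :
    Continuous (fun t => ∫ θ in (0:ℝ)..1, F t θ) :=
  intervalIntegral.continuous_parametric_intervalIntegral_of_continuous' hF 0 1

/-- Averaging: in a short cell `[a, a+h]`, letting the parameter sweep `[0,1]` at constant speed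
has nearly the same effect as averaging over the parameter. -/
theorem averaging {F : ℝ → ℝ → G} (hF : Continuous (Function.uncurry F)) (a0 b0 : ℝ) {ρ : ℝ}
    (hρ : 0 < ρ) :
    ∃ h0 : ℝ, 0 < h0 ∧ ∀ a h : ℝ, a0 ≤ a → 0 < h → h ≤ h0 → a + h ≤ b0 →
      ‖∫ t in a..(a + h), ((∫ θ in (0:ℝ)..1, F t θ) - F t ((t - a) / h))‖ ≤ 2 * ρ * h := by
  have hK : IsCompact (Icc a0 b0 ×ˢ Icc (0:ℝ) 1) := isCompact_Icc.prod isCompact_Icc
  have hu := hK.uniformContinuousOn_of_continuous hF.continuousOn
  rw [Metric.uniformContinuousOn_iff] at hu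
  obtain ⟨δ, hδ, hd⟩ := hu ρ hρ
  refine ⟨δ / 2, by positivity, ?_⟩
  intro a h ha hh hhδ hb
  have hunif : ∀ t ∈ Icc a (a + h), ∀ θ ∈ Icc (0:ℝ) 1, ‖F t θ - F a θ‖ ≤ ρ := by
    intro t ht θ hθ
    have h1 := hd (t, θ) ⟨⟨ha.trans ht.1, ht.2.trans hb⟩, hθ⟩ (a, θ)
      ⟨⟨ha, by linarith⟩, hθ⟩ (by
        rw [Prod.dist_eq]
        simp only [dist_self]
        rw [max_eq_left dist_nonneg, Real.dist_eq, abs_of_nonneg (by linarith [ht.1])]
        linarith [ht.2])
    rw [dist_eq_norm] at h1
    exact h1.le
  have hBc : Continuous (fun t => ∫ θ in (0:ℝ)..1, F t θ) := continuous_average hF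
  have hc1 : Continuous (fun t => F t ((t - a) / h)) := by
    have : Continuous (fun t : ℝ => (t, (t - a) / h)) := by fun_prop
    exact hF.comp this
  have hc2 : Continuous (fun t => F a ((t - a) / h)) := by
    have : Continuous (fun t : ℝ => (a, (t - a) / h)) := by fun_prop
    exact hF.comp this
  have hsub : ∫ t in a..(a + h), F a ((t - a) / h) =
      ∫ t in a..(a + h), ∫ θ in (0:ℝ)..1, F a θ := by
    have h1 : ∀ t : ℝ, (t - a) / h = t / h - a / h := fun t => by rw [sub_div]
    simp_rw [h1]
    rw [intervalIntegral.integral_comp_div_sub (fun x => F a x) hh.ne' (a / h)]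
    rw [sub_self, add_div, div_self hh.ne', add_sub_cancel_left, intervalIntegral.integral_const]
    congr 1
    ring
  have hdec : ∫ t in a..(a + h), ((∫ θ in (0:ℝ)..1, F t θ) - F t ((t - a) / h)) =
      (∫ t in a..(a + h), ((∫ θ in (0:ℝ)..1, F t θ) - ∫ θ in (0:ℝ)..1, F a θ)) -
      ∫ t in a..(a + h), (F t ((t - a) / h) - F a ((t - a) / h)) := by
    rw [intervalIntegral.integral_sub (hBc.intervalIntegrable _ _) (hc1.intervalIntegrable _ _),
      intervalIntegral.integral_sub (hBc.intervalIntegrable _ _)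
        (continuous_const.intervalIntegrable _ _),
      intervalIntegral.integral_sub (hc1.intervalIntegrable _ _) (hc2.intervalIntegrable _ _),
      hsub]
    abel
  have hb1 : ‖∫ t in a..(a + h), ((∫ θ in (0:ℝ)..1, F t θ) - ∫ θ in (0:ℝ)..1, F a θ)‖ ≤
      ρ * h := by
    have h1 := intervalIntegral.norm_integral_le_of_norm_le_const (a := a) (b := a + h)
      (f := fun t => (∫ θ in (0:ℝ)..1, F t θ) - ∫ θ in (0:ℝ)..1, F a θ) (C := ρ) (by
        intro t ht
        rw [uIoc_of_le (by linarith)] at ht
        have hFt : Continuous (fun θ => F t θ) := by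
          have : Continuous (fun θ : ℝ => (t, θ)) := by fun_prop
          exact hF.comp this
        have hFa : Continuous (fun θ => F a θ) := by
          have : Continuous (fun θ : ℝ => (a, θ)) := by fun_prop
          exact hF.comp this
        rw [← intervalIntegral.integral_sub (hFt.intervalIntegrable _ _)
          (hFa.intervalIntegrable _ _)]
        have h2 := intervalIntegral.norm_integral_le_of_norm_le_const (a := 0) (b := 1)
          (f := fun θ => F t θ - F a θ) (C := ρ) (by
            intro θ hθ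
            rw [uIoc_of_le zero_le_one] at hθ
            exact hunif t ⟨ht.1.le, ht.2⟩ θ ⟨hθ.1.le, hθ.2⟩)
        simpa using h2)
    simpa [abs_of_pos hh] using h1
  have hb2 : ‖∫ t in a..(a + h), (F t ((t - a) / h) - F a ((t - a) / h))‖ ≤ ρ * h := by
    have h1 := intervalIntegral.norm_integral_le_of_norm_le_const (a := a) (b := a + h)
      (f := fun t => F t ((t - a) / h) - F a ((t - a) / h)) (C := ρ) (by
        intro t ht
        rw [uIoc_of_le (by linarith)] at ht
        refine hunif t ⟨ht.1.le, ht.2⟩ _ ⟨div_nonneg (by linarith [ht.1]) hh.le, ?_⟩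
        rw [div_le_one hh]
        linarith [ht.2])
    simpa [abs_of_pos hh] using h1
  rw [hdec]
  refine (norm_sub_le _ _).trans ?_
  linarith

end Pool.Agent.MarkusYamabe
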