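import Pool.Agent.MarkusYamabe.Evolution

open Set Filter Topology MeasureTheory intervalIntegral

namespace Pool.Agent.MarkusYamabe

variable {E : Type*} [NormedAddCommGroup E] [NormedSpace ℝ E] [CompleteSpace E]

/-- One-cell comparison of the solutions of `x' = B x` and `y' = A y` with the same initial value:
everything is continuous on the closed cell `[a, b]`. -/
theorem cell_estimate {A B : ℝ → E →L[ℝ] E} {x y : ℝ → E} {a b C X : ℝ} (hab : a ≤ b)
    (hC : 0 ≤ C) (hX : 0 ≤ X)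
    (hAc : Continuous A) (hBc : Continuous B)
    (hA : ∀ t ∈ Icc a b, ‖A t‖ ≤ C) (hB : ∀ t ∈ Icc a b, ‖B t‖ ≤ C)
    (hxc : ContinuousOn x (Icc a b)) (hyc : ContinuousOn y (Icc a b))
    (hx : ∀ t ∈ Icc a b, x t = x a + ∫ τ in a..t, B τ (x τ))
    (hy : ∀ t ∈ Icc a b, y t = x a + ∫ τ in a..t, A τ (y τ))
    (hxX : ∀ t ∈ Icc a b, ‖x t‖ ≤ X) :
    ‖x b - y b‖ ≤ ‖∫ τ in a..b, (B τ - A τ)‖ * X +
      2 * C ^ 2 * X * Real.exp (C * (b - a)) * (b - a) ^ 2 := by
  have hba : 0 ≤ b - a := by linarith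
  have hexp : 1 ≤ Real.exp (C * (b - a)) := Real.one_le_exp (by positivity)
  have haa : a ∈ Icc a b := ⟨le_rfl, hab⟩
  have hbb : b ∈ Icc a b := ⟨hab, le_rfl⟩
  have hya : y a = x a := by rw [hy a haa]; simp
  -- integrability
  have hBx : IntervalIntegrable (fun τ => B τ (x τ)) volume a b := by
    apply ContinuousOn.intervalIntegrable; rw [uIcc_of_le hab]
    exact hBc.continuousOn.clm_apply hxc
  have hAy : IntervalIntegrable (fun τ => A τ (y τ)) volume a b := by
    apply ContinuousOn.intervalIntegrable; rw [uIcc_of_le hab]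
    exact hAc.continuousOn.clm_apply hyc
  have hBd : IntervalIntegrable (fun τ => B τ (x τ - x a)) volume a b := by
    apply ContinuousOn.intervalIntegrable; rw [uIcc_of_le hab]
    exact hBc.continuousOn.clm_apply (hxc.sub continuousOn_const)
  have hAd : IntervalIntegrable (fun τ => A τ (y τ - x a)) volume a b := by
    apply ContinuousOn.intervalIntegrable; rw [uIcc_of_le hab]
    exact hAc.continuousOn.clm_apply (hyc.sub continuousOn_const)
  have hBAc : Continuous (fun τ => B τ - A τ) := hBc.sub hAc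
  have hBAi : IntervalIntegrable (fun τ => (B τ - A τ) (x a)) volume a b := by
    apply Continuous.intervalIntegrable
    exact hBAc.clm_apply continuous_const
  -- bound on y
  have hyX : ∀ t ∈ Icc a b, ‖y t‖ ≤ X * Real.exp (C * (b - a)) := by
    intro t ht
    have h1 := gronwall_fwd (y := y) (a := a) (b := b) (c := ‖x a‖) (K := C) hC hyc (by
      intro t ht
      rw [hy t ht]
      refine (norm_add_le _ _).trans ?_
      gcongr
      exact norm_integral_apply_le (a := a) (b := b)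
        (fun σ hσ => hA σ ⟨hσ.1, hσ.2.le⟩) hyc le_rfl ht.1 ht.2) t ht
    refine h1.trans ?_
    gcongr
    · exact hxX a haa
    · exact ht.2
  -- increments
  have hxinc : ∀ t ∈ Icc a b, ‖x t - x a‖ ≤ C * X * (b - a) := by
    intro t ht
    rw [hx t ht, add_sub_cancel_left]
    have h1 : ‖∫ τ in a..t, B τ (x τ)‖ ≤ (C * X) * |t - a| := by
      apply intervalIntegral.norm_integral_le_of_norm_le_const
      intro τ hτ
      rw [uIoc_of_le ht.1] at hτ
      have hτ' : τ ∈ Icc a b := ⟨hτ.1.le, hτ.2.trans ht.2⟩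
      calc ‖B τ (x τ)‖ ≤ ‖B τ‖ * ‖x τ‖ := (B τ).le_opNorm _
        _ ≤ C * X := by gcongr; exacts [hB τ hτ', hxX τ hτ']
    refine h1.trans ?_
    rw [abs_of_nonneg (by linarith [ht.1])]
    gcongr
    exact ht.2
  have hyinc : ∀ t ∈ Icc a b, ‖y t - x a‖ ≤ C * (X * Real.exp (C * (b - a))) * (b - a) := by
    intro t ht
    rw [hy t ht, add_sub_cancel_left]
    have h1 : ‖∫ τ in a..t, A τ (y τ)‖ ≤ (C * (X * Real.exp (C * (b - a)))) * |t - a| := by
      apply intervalIntegral.norm_integral_le_of_norm_le_const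
      intro τ hτ
      rw [uIoc_of_le ht.1] at hτ
      have hτ' : τ ∈ Icc a b := ⟨hτ.1.le, hτ.2.trans ht.2⟩
      calc ‖A τ (y τ)‖ ≤ ‖A τ‖ * ‖y τ‖ := (A τ).le_opNorm _
        _ ≤ C * (X * Real.exp (C * (b - a))) := by gcongr; exacts [hA τ hτ', hyX τ hτ']
    refine h1.trans ?_
    rw [abs_of_nonneg (by linarith [ht.1])]
    gcongr
    exact ht.2
  -- decomposition
  have hdec : x b - y b = (∫ τ in a..b, (B τ - A τ)) (x a) +
      ((∫ τ in a..b, B τ (x τ - x a)) - ∫ τ in a..b, A τ (y τ - x a)) := by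
    rw [hx b hbb, hy b hbb]
    rw [ContinuousLinearMap.intervalIntegral_apply (hBAc.intervalIntegrable a b)]
    rw [add_sub_add_left_eq_sub, ← intervalIntegral.integral_sub hBx hAy,
      ← intervalIntegral.integral_sub hBd hAd, ← intervalIntegral.integral_add hBAi (hBd.sub hAd)]
    congr 1
    ext τ
    simp only [ContinuousLinearMap.sub_apply, map_sub]
    abel
  have h1 : ‖(∫ τ in a..b, (B τ - A τ)) (x a)‖ ≤ ‖∫ τ in a..b, (B τ - A τ)‖ * X :=
    (ContinuousLinearMap.le_opNorm _ _).trans (by gcongr; exact hxX a haa)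
  have h2 : ‖∫ τ in a..b, B τ (x τ - x a)‖ ≤ C * (C * X * (b - a)) * (b - a) := by
    have := intervalIntegral.norm_integral_le_of_norm_le_const (a := a) (b := b)
      (f := fun τ => B τ (x τ - x a)) (C := C * (C * X * (b - a))) (by
      intro τ hτ
      rw [uIoc_of_le hab] at hτ
      have hτ' : τ ∈ Icc a b := ⟨hτ.1.le, hτ.2⟩
      calc ‖B τ (x τ - x a)‖ ≤ ‖B τ‖ * ‖x τ - x a‖ := (B τ).le_opNorm _
        _ ≤ C * (C * X * (b - a)) := by gcongr; exacts [hB τ hτ', hxinc τ hτ'])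
    rwa [abs_of_nonneg hba] at this
  have h3 : ‖∫ τ in a..b, A τ (y τ - x a)‖ ≤
      C * (C * (X * Real.exp (C * (b - a))) * (b - a)) * (b - a) := by
    have := intervalIntegral.norm_integral_le_of_norm_le_const (a := a) (b := b)
      (f := fun τ => A τ (y τ - x a)) (C := C * (C * (X * Real.exp (C * (b - a))) * (b - a))) (by
      intro τ hτ
      rw [uIoc_of_le hab] at hτ
      have hτ' : τ ∈ Icc a b := ⟨hτ.1.le, hτ.2⟩
      calc ‖A τ (y τ - x a)‖ ≤ ‖A τ‖ * ‖y τ - x a‖ := (A τ).le_opNorm _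
        _ ≤ C * (C * (X * Real.exp (C * (b - a))) * (b - a)) := by
          gcongr; exacts [hA τ hτ', hyinc τ hτ'])
    rwa [abs_of_nonneg hba] at this
  rw [hdec]
  calc ‖(∫ τ in a..b, (B τ - A τ)) (x a) +
      ((∫ τ in a..b, B τ (x τ - x a)) - ∫ τ in a..b, A τ (y τ - x a))‖
      ≤ ‖(∫ τ in a..b, (B τ - A τ)) (x a)‖ +
        (‖∫ τ in a..b, B τ (x τ - x a)‖ + ‖∫ τ in a..b, A τ (y τ - x a)‖) :=
        (norm_add_le _ _).trans (by gcongr; exact norm_sub_le _ _)
    _ ≤ ‖∫ τ in a..b, (B τ - A τ)‖ * X + (C * (C * X * (b - a)) * (b - a) +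
        C * (C * (X * Real.exp (C * (b - a))) * (b - a)) * (b - a)) := by gcongr
    _ ≤ _ := by
      have : C * (C * X * (b - a)) * (b - a) ≤
          C ^ 2 * X * Real.exp (C * (b - a)) * (b - a) ^ 2 := by
        have h0 : 0 ≤ C ^ 2 * X * (b - a) ^ 2 := by positivity
        nlinarith [mul_le_mul_of_nonneg_left hexp h0]
      nlinarith [this]

/-- Crude one-cell estimate. -/
theorem cell_estimate_crude {A B : ℝ → E →L[ℝ] E} {x y : ℝ → E} {a b C X : ℝ}
    (hC : 0 ≤ C) (hX : 0 ≤ X)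
    (hA : ∀ t ∈ Icc a b, ‖A t‖ ≤ C) (hB : ∀ t ∈ Icc a b, ‖B t‖ ≤ C)
    (hyc : ContinuousOn y (Icc a b))
    (hx : ∀ t ∈ Icc a b, x t = x a + ∫ τ in a..t, B τ (x τ))
    (hy : ∀ t ∈ Icc a b, y t = x a + ∫ τ in a..t, A τ (y τ))
    (hxX : ∀ t ∈ Icc a b, ‖x t‖ ≤ X) {t : ℝ} (ht : t ∈ Icc a b) :
    ‖x t - y t‖ ≤ 2 * C * X * Real.exp (C * (b - a)) * (b - a) := by
  have hab : a ≤ b := ht.1.trans ht.2
  have hba : 0 ≤ b - a := by linarith
  have hexp : 1 ≤ Real.exp (C * (b - a)) := Real.one_le_exp (by positivity)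
  have haa : a ∈ Icc a b := ⟨le_rfl, hab⟩
  have hyX : ∀ t ∈ Icc a b, ‖y t‖ ≤ X * Real.exp (C * (b - a)) := by
    intro t ht
    have h1 := gronwall_fwd (y := y) (a := a) (b := b) (c := ‖x a‖) (K := C) hC hyc (by
      intro t ht
      rw [hy t ht]
      refine (norm_add_le _ _).trans ?_
      gcongr
      exact norm_integral_apply_le (a := a) (b := b)
        (fun σ hσ => hA σ ⟨hσ.1, hσ.2.le⟩) hyc le_rfl ht.1 ht.2) t ht
    refine h1.trans ?_
    gcongr
    · exact hxX a haa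
    · exact ht.2
  have hxinc : ‖x t - x a‖ ≤ C * X * (b - a) := by
    rw [hx t ht, add_sub_cancel_left]
    have h1 : ‖∫ τ in a..t, B τ (x τ)‖ ≤ (C * X) * |t - a| := by
      apply intervalIntegral.norm_integral_le_of_norm_le_const
      intro τ hτ
      rw [uIoc_of_le ht.1] at hτ
      have hτ' : τ ∈ Icc a b := ⟨hτ.1.le, hτ.2.trans ht.2⟩
      calc ‖B τ (x τ)‖ ≤ ‖B τ‖ * ‖x τ‖ := (B τ).le_opNorm _
        _ ≤ C * X := by gcongr; exacts [hB τ hτ', hxX τ hτ']
    refine h1.trans ?_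
    rw [abs_of_nonneg (by linarith [ht.1])]
    gcongr
    exact ht.2
  have hyinc : ‖y t - x a‖ ≤ C * (X * Real.exp (C * (b - a))) * (b - a) := by
    rw [hy t ht, add_sub_cancel_left]
    have h1 : ‖∫ τ in a..t, A τ (y τ)‖ ≤ (C * (X * Real.exp (C * (b - a)))) * |t - a| := by
      apply intervalIntegral.norm_integral_le_of_norm_le_const
      intro τ hτ
      rw [uIoc_of_le ht.1] at hτ
      have hτ' : τ ∈ Icc a b := ⟨hτ.1.le, hτ.2.trans ht.2⟩
      calc ‖A τ (y τ)‖ ≤ ‖A τ‖ * ‖y τ‖ := (A τ).le_opNorm _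
        _ ≤ C * (X * Real.exp (C * (b - a))) := by gcongr; exacts [hA τ hτ', hyX τ hτ']
    refine h1.trans ?_
    rw [abs_of_nonneg (by linarith [ht.1])]
    gcongr
    exact ht.2
  have h4 : ‖x t - y t‖ ≤ ‖x t - x a‖ + ‖y t - x a‖ := by
    have := norm_sub_le (x t - x a) (y t - x a)
    simpa using this
  have h5 : C * X * (b - a) ≤ C * X * Real.exp (C * (b - a)) * (b - a) := by
    have h0 : 0 ≤ C * X * (b - a) := by positivity
    nlinarith [mul_le_mul_of_nonneg_left hexp h0]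
  nlinarith

end Pool.Agent.MarkusYamabe
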