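import Mathlib

/-!
# Definitions for the nonuniform nonautonomous Markus-Yamabe problem (MP_1775bc_an)

`E` is a finite-dimensional real normed space (that is, `ℝⁿ` with an arbitrary fixed norm).
Time runs over `[0, ∞)`; functions of time are total functions on `ℝ` of which only the values at
`t ≥ 0` matter.
-/

open Set Filter Topology MeasureTheory intervalIntegral

namespace Pool.Agent.MarkusYamabe

/-- `g : [0,∞) → X` is piecewise continuous: on every `[0, b]` it is continuous except at finitely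
many points, and at every point it has one-sided limits. -/
def PiecewiseContinuous {X : Type*} [TopologicalSpace X] (g : ℝ → X) : Prop :=
  (∀ b : ℝ, {t : ℝ | t ∈ Icc 0 b ∧ ¬ ContinuousWithinAt g (Ici 0) t}.Finite) ∧
  (∀ t : ℝ, 0 ≤ t → ∃ l, Tendsto g (𝓝[>] t) (𝓝 l)) ∧
  (∀ t : ℝ, 0 < t → ∃ l, Tendsto g (𝓝[<] t) (𝓝 l))

variable {E : Type*} [NormedAddCommGroup E] [NormedSpace ℝ E]

/-- `y` is a solution on `[0,∞)` of the linear equation `y' = A(t) y`, in integrated form. -/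
def IsLinearSolution (A : ℝ → E →L[ℝ] E) (y : ℝ → E) : Prop :=
  ContinuousOn y (Ici 0) ∧
    ∀ s : ℝ, 0 ≤ s → ∀ t : ℝ, 0 ≤ t → y t = y s + ∫ τ in s..t, A τ (y τ)

/-- `T t s` is the evolution operator of `y' = A(t) y` (`t, s ≥ 0`). -/
structure IsEvolutionOperator (A : ℝ → E →L[ℝ] E) (T : ℝ → ℝ → E →L[ℝ] E) : Prop where
  self : ∀ s : ℝ, 0 ≤ s → T s s = ContinuousLinearMap.id ℝ E
  isSol : ∀ s : ℝ, 0 ≤ s → ∀ v : E, IsLinearSolution A (fun t => T t s v)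
  eq_of_isSol : ∀ y : ℝ → E, IsLinearSolution A y →
    ∀ s : ℝ, 0 ≤ s → ∀ t : ℝ, 0 ≤ t → y t = T t s (y s)

/-- `y' = A(t) y` has a `(K e^{εs}, γ)`-nonuniform exponential dichotomy on `[0,∞)` with
projections `P(t)`. -/
def HasDichotomyWith (A : ℝ → E →L[ℝ] E) (P : ℝ → E →L[ℝ] E) (K γ ε : ℝ) : Prop :=
  (∀ t : ℝ, 0 ≤ t → P t ∘L P t = P t) ∧
  ∃ T : ℝ → ℝ → E →L[ℝ] E, IsEvolutionOperator A T ∧
    (∀ t : ℝ, 0 ≤ t → ∀ s : ℝ, 0 ≤ s → T t s ∘L P s = P t ∘L T t s) ∧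
    (∀ s : ℝ, 0 ≤ s → ∀ t : ℝ, s ≤ t →
      ‖T t s ∘L P s‖ ≤ K * Real.exp (-γ * (t - s) + ε * s)) ∧
    (∀ t : ℝ, 0 ≤ t → ∀ s : ℝ, t ≤ s →
      ‖T t s ∘L (ContinuousLinearMap.id ℝ E - P s)‖ ≤ K * Real.exp (-γ * (s - t) + ε * s))

/-- Nonuniform exponential stability: `y' = A(t) y` has a `(K e^{εs}, γ)`-nonuniform exponential
dichotomy with `P(t) ≡ I`, for some `K ≥ 1` and `0 ≤ ε < γ`. -/
def HasDichotomyId (A : ℝ → E →L[ℝ] E) : Prop :=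
  ∃ K γ ε : ℝ, 1 ≤ K ∧ 0 ≤ ε ∧ ε < γ ∧
    HasDichotomyWith A (fun _ => ContinuousLinearMap.id ℝ E) K γ ε

/-- `x` solves `x' = f(t, x)` on `[t₀, ∞)`. -/
def IsForwardSolution (f : ℝ → E → E) (t₀ : ℝ) (x : ℝ → E) : Prop :=
  ∀ t : ℝ, t₀ ≤ t → HasDerivWithinAt x (f t (x t)) (Ici t₀) t

/-- (G1): `f` is continuous on `[0,∞) × E`, of class `C¹` in `x`, and forward solutions exist
globally. -/
structure CondG1 (f : ℝ → E → E) : Prop where
  cont : ContinuousOn (Function.uncurry f) (Ici 0 ×ˢ univ)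
  contDiff : ∀ t : ℝ, 0 ≤ t → ContDiff ℝ 1 (f t)
  complete : ∀ t₀ : ℝ, 0 ≤ t₀ → ∀ x₀ : E, ∃ x : ℝ → E, x t₀ = x₀ ∧ IsForwardSolution f t₀ x

/-- (G2): `f(t, 0) = 0`. -/
def CondG2 (f : ℝ → E → E) : Prop := ∀ t : ℝ, 0 ≤ t → f t 0 = 0

/-- (G3): for every piecewise continuous `ω`, the system `y' = Jf(t, ω(t)) y` has piecewise
continuous coefficients and a nonuniform exponential dichotomy with `P ≡ I`. -/
def CondG3 (f : ℝ → E → E) : Prop :=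
  ∀ ω : ℝ → E, PiecewiseContinuous ω →
    PiecewiseContinuous (fun t => fderiv ℝ (f t) (ω t)) ∧
    HasDichotomyId (fun t => fderiv ℝ (f t) (ω t))

/-- The trivial solution of `x' = f(t, x)` is globally nonuniformly asymptotically stable. -/
def GloballyNonuniformlyAsymptoticallyStable (f : ℝ → E → E) : Prop :=
  ∀ t₀ : ℝ, 0 ≤ t₀ →
    (∀ η : ℝ, 0 < η → ∃ δ : ℝ, 0 < δ ∧ ∀ x : ℝ → E, IsForwardSolution f t₀ x → ‖x t₀‖ < δ →
      ∀ t : ℝ, t₀ ≤ t → ‖x t‖ < η) ∧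
    (∀ x : ℝ → E, IsForwardSolution f t₀ x → Tendsto x atTop (𝓝 0))

end Pool.Agent.MarkusYamabe
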