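import Pool.Agent.MarkusYamabe.Gronwall

open Set Filter Topology MeasureTheory intervalIntegral

namespace Pool.Agent.MarkusYamabe

variable {E : Type*} [NormedAddCommGroup E] [NormedSpace ℝ E]

theorem norm_integral_apply_le {A : ℝ → E →L[ℝ] E} {y : ℝ → E} {a b C : ℝ}
    (hA : ∀ τ ∈ Ico a b, ‖A τ‖ ≤ C) (hy : ContinuousOn y (Icc a b)) {s t : ℝ}
    (has : a ≤ s) (hst : s ≤ t) (htb : t ≤ b) :
    ‖∫ τ in s..t, A τ (y τ)‖ ≤ C * ∫ τ in s..t, ‖y τ‖ := by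
  have hyi : IntervalIntegrable (fun τ => ‖y τ‖) volume s t := by
    apply ContinuousOn.intervalIntegrable
    rw [uIcc_of_le hst]
    exact (hy.mono (Icc_subset_Icc has htb)).norm
  rw [← intervalIntegral.integral_const_mul]
  apply intervalIntegral.norm_integral_le_of_norm_le hst _ (hyi.const_mul C)
  have : ∀ᵐ τ : ℝ, τ ≠ b := by
    simp [ae_iff, measure_singleton]
  filter_upwards [this] with τ hτb hτ
  have hτ' : τ ∈ Ico a b := ⟨has.trans hτ.1.le, lt_of_le_of_ne (hτ.2.trans htb) hτb⟩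
  calc ‖A τ (y τ)‖ ≤ ‖A τ‖ * ‖y τ‖ := (A τ).le_opNorm _
    _ ≤ C * ‖y τ‖ := by gcongr; exact hA τ hτ'

namespace IsEvolutionOperator

variable {A : ℝ → E →L[ℝ] E} {T : ℝ → ℝ → E →L[ℝ] E}

theorem comp_apply (hT : IsEvolutionOperator A T) {r s t : ℝ} (hr : 0 ≤ r) (hs : 0 ≤ s)
    (ht : 0 ≤ t) (v : E) : T t s (T s r v) = T t r v :=
  (hT.eq_of_isSol _ (hT.isSol r hr v) s hs t ht).symm

theorem self_apply (hT : IsEvolutionOperator A T) {s : ℝ} (hs : 0 ≤ s) (v : E) :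
    T s s v = v := by rw [hT.self s hs]; rfl

theorem cont (hT : IsEvolutionOperator A T) {s : ℝ} (hs : 0 ≤ s) (v : E) :
    ContinuousOn (fun t => T t s v) (Ici 0) := (hT.isSol s hs v).1

theorem eqn (hT : IsEvolutionOperator A T) {s : ℝ} (hs : 0 ≤ s) (v : E) {r t : ℝ}
    (hr : 0 ≤ r) (ht : 0 ≤ t) : T t s v = T r s v + ∫ τ in r..t, A τ (T τ s v) :=
  (hT.isSol s hs v).2 r hr t ht

theorem norm_apply_fwd (hT : IsEvolutionOperator A T) {a b C : ℝ} (ha : 0 ≤ a)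
    (hC : 0 ≤ C) (hA : ∀ τ ∈ Ico a b, ‖A τ‖ ≤ C) {s t : ℝ} (has : a ≤ s) (hst : s ≤ t)
    (htb : t ≤ b) (v : E) : ‖T t s v‖ ≤ ‖v‖ * Real.exp (C * (t - s)) := by
  have hs0 : 0 ≤ s := ha.trans has
  refine gronwall_fwd (y := fun t => T t s v) (a := s) (b := b) hC
    ((hT.cont hs0 v).mono (fun τ hτ => hs0.trans hτ.1)) ?_ t ⟨hst, htb⟩
  intro τ hτ
  rw [hT.eqn hs0 v hs0 (hs0.trans hτ.1), hT.self_apply hs0]
  refine (norm_add_le _ _).trans ?_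
  gcongr
  exact norm_integral_apply_le (a := s) (b := b) (fun σ hσ => hA σ ⟨has.trans hσ.1, hσ.2⟩)
    ((hT.cont hs0 v).mono (fun τ hτ => hs0.trans hτ.1)) le_rfl hτ.1 hτ.2

theorem norm_apply_bwd (hT : IsEvolutionOperator A T) {a b C : ℝ} (ha : 0 ≤ a)
    (hC : 0 ≤ C) (hA : ∀ τ ∈ Ico a b, ‖A τ‖ ≤ C) {s t : ℝ} (hat : a ≤ t) (hts : t ≤ s)
    (hsb : s ≤ b) (v : E) : ‖T t s v‖ ≤ ‖v‖ * Real.exp (C * (s - t)) := by
  have hs0 : 0 ≤ s := ha.trans (hat.trans hts)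
  have hcont : ContinuousOn (fun t => T t s v) (Icc a s) :=
    (hT.cont hs0 v).mono (fun τ hτ => ha.trans hτ.1)
  refine gronwall_bwd (y := fun t => T t s v) (a := a) (b := s) hC hcont ?_ t ⟨hat, hts⟩
  intro τ hτ
  have h1 := hT.eqn hs0 v hs0 (ha.trans hτ.1)
  rw [hT.self_apply hs0, intervalIntegral.integral_symm] at h1
  have h2 : ‖T τ s v‖ ≤ ‖v‖ + ‖∫ σ in τ..s, A σ (T σ s v)‖ := by
    rw [h1]
    simpa [sub_eq_add_neg] using norm_sub_le v (∫ σ in τ..s, A σ (T σ s v))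
  refine h2.trans ?_
  gcongr
  exact norm_integral_apply_le (a := a) (b := s) (fun σ hσ => hA σ ⟨hσ.1, hσ.2.trans_le hsb⟩)
    hcont hτ.1 hτ.2 le_rfl

end IsEvolutionOperator

end Pool.Agent.MarkusYamabe
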