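import Pool.Agent.MarkusYamabe.Defs

open Set Filter Topology

namespace Pool.Agent.MarkusYamabe

variable {E : Type*} [NormedAddCommGroup E] [NormedSpace ℝ E]

/-- A function that agrees with continuous functions on both sides of every point is piecewise
continuous. -/
theorem piecewiseContinuous_of_local {ω : ℝ → E}
    (hR : ∀ t : ℝ, 0 ≤ t → ∃ g : ℝ → E, Continuous g ∧ ∀ᶠ τ in 𝓝[>] t, ω τ = g τ)
    (hL : ∀ t : ℝ, 0 < t → ∃ g : ℝ → E, Continuous g ∧ ∀ᶠ τ in 𝓝[<] t, ω τ = g τ) :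
    PiecewiseContinuous ω := by
  refine ⟨?_, ?_, ?_⟩
  · intro b
    set S : Set ℝ := {t : ℝ | t ∈ Icc 0 b ∧ ¬ ContinuousWithinAt ω (Ici 0) t} with hS
    have hmain : (Icc 0 b ∩ S).Finite := by
      refine (isCompact_Icc (a := (0:ℝ)) (b := b)).induction_on (p := fun U => (U ∩ S).Finite)
        (by simp) (fun U V hUV hV => hV.subset (inter_subset_inter_left _ hUV))
        (fun U V hU hV => by
          have : (U ∪ V) ∩ S = (U ∩ S) ∪ (V ∩ S) := union_inter_distrib_right _ _ _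
          rw [this]; exact hU.union hV) ?_
      intro t ht
      obtain ⟨gR, hgR, hR'⟩ := hR t ht.1
      obtain ⟨u, hu, hRu⟩ := (mem_nhdsGT_iff_exists_Ioo_subset' (show t < t + 1 by linarith)).1 hR'
      have hRc : ∀ τ ∈ Ioo t u, ContinuousAt ω τ := by
        intro τ hτ
        have : ω =ᶠ[𝓝 τ] gR := by
          filter_upwards [Ioo_mem_nhds hτ.1 hτ.2] with σ hσ using hRu hσ
        exact (continuousAt_congr this).2 hgR.continuousAt
      rcases ht.1.eq_or_lt with h0 | h0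
      · -- t = 0
        refine ⟨Ico 0 u, ?_, ?_⟩
        · have : Iio u ∈ 𝓝 t := Iio_mem_nhds hu
          filter_upwards [mem_nhdsWithin_of_mem_nhds this, self_mem_nhdsWithin] with τ h1 h2
          exact ⟨h2.1, h1⟩
        · apply (finite_singleton t).subset
          rintro τ ⟨⟨h1, h2⟩, h3⟩
          rw [mem_singleton_iff]
          by_contra hne
          have : t < τ := lt_of_le_of_ne (by linarith) (Ne.symm hne)
          exact h3.2 (hRc τ ⟨this, h2⟩).continuousWithinAt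
      · obtain ⟨gL, hgL, hL'⟩ := hL t h0
        obtain ⟨l, hl, hLl⟩ := (mem_nhdsLT_iff_exists_Ioo_subset' (show t - 1 < t by linarith)).1 hL'
        have hLc : ∀ τ ∈ Ioo l t, ContinuousAt ω τ := by
          intro τ hτ
          have : ω =ᶠ[𝓝 τ] gL := by
            filter_upwards [Ioo_mem_nhds hτ.1 hτ.2] with σ hσ using hLl hσ
          exact (continuousAt_congr this).2 hgL.continuousAt
        refine ⟨Ioo l u, mem_nhdsWithin_of_mem_nhds (Ioo_mem_nhds hl hu), ?_⟩
        apply (finite_singleton t).subset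
        rintro τ ⟨⟨h1, h2⟩, h3⟩
        rw [mem_singleton_iff]
        by_contra hne
        rcases lt_or_gt_of_ne hne with h4 | h4
        · exact h3.2 (hLc τ ⟨h1, h4⟩).continuousWithinAt
        · exact h3.2 (hRc τ ⟨h4, h2⟩).continuousWithinAt
    apply hmain.subset
    intro t ht
    exact ⟨ht.1, ht⟩
  · intro t ht
    obtain ⟨g, hg, h⟩ := hR t ht
    exact ⟨g t, ((hg.tendsto t).mono_left nhdsWithin_le_nhds).congr'
      (h.mono fun τ hτ => hτ.symm)⟩
  · intro t ht
    obtain ⟨g, hg, h⟩ := hL t ht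
    exact ⟨g t, ((hg.tendsto t).mono_left nhdsWithin_le_nhds).congr'
      (h.mono fun τ hτ => hτ.symm)⟩

/-- Index of the interval `[s m, s (m+1))` containing `t`. -/
noncomputable def idx (s : ℕ → ℝ) (t : ℝ) : ℕ := sInf {m | t < s (m + 1)}

theorem idx_eq {s : ℕ → ℝ} (hs : StrictMono s) {m : ℕ} {t : ℝ} (ht : t ∈ Ico (s m) (s (m + 1))) :
    idx s t = m := by
  have hne : {k | t < s (k + 1)}.Nonempty := ⟨m, ht.2⟩
  apply le_antisymm
  · exact Nat.sInf_le ht.2
  · by_contra hlt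
    rw [not_le] at hlt
    have h1 : t < s (idx s t + 1) := Nat.sInf_mem hne
    have h2 : s (idx s t + 1) ≤ s m := hs.monotone hlt
    linarith [ht.1]

theorem exists_idx {s : ℕ → ℝ} (hlim : Tendsto s atTop atTop) {t : ℝ} (ht : s 0 ≤ t) :
    ∃ m, t ∈ Ico (s m) (s (m + 1)) := by
  obtain ⟨n, hn⟩ := (hlim.eventually_gt_atTop t).exists
  induction n with
  | zero => exact absurd hn (not_lt.2 ht)
  | succ n ih =>
    by_cases h : t < s n
    · exact ih h
    · exact ⟨n, not_lt.1 h, hn⟩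

theorem exists_idx' {s : ℕ → ℝ} (hlim : Tendsto s atTop atTop) {t : ℝ} (ht : s 0 < t) :
    ∃ m, t ∈ Ioc (s m) (s (m + 1)) := by
  obtain ⟨n, hn⟩ := (hlim.eventually_ge_atTop t).exists
  induction n with
  | zero => exact absurd hn (not_le.2 ht)
  | succ n ih =>
    by_cases h : t ≤ s n
    · exact ih h
    · exact ⟨n, not_le.1 h, hn⟩

/-- The sawtooth control: on `[s m, s (m+1))` it is `fract(N_m (t - s_m)/(s_{m+1}-s_m)) • x_m(t)`.
-/
noncomputable def sawtooth (s : ℕ → ℝ) (N : ℕ → ℕ) (x : ℕ → ℝ → E) (t : ℝ) : E :=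
  if t < s 0 then 0 else
    Int.fract ((N (idx s t) : ℝ) * (t - s (idx s t)) / (s (idx s t + 1) - s (idx s t))) •
      x (idx s t) t

theorem sawtooth_eq {s : ℕ → ℝ} (hs : StrictMono s) (N : ℕ → ℕ) (x : ℕ → ℝ → E) {m : ℕ} {t : ℝ}
    (ht : t ∈ Ico (s m) (s (m + 1))) :
    sawtooth s N x t = Int.fract ((N m : ℝ) * (t - s m) / (s (m + 1) - s m)) • x m t := by
  have h0 : ¬ t < s 0 := not_lt.2 ((hs.monotone (Nat.zero_le m)).trans ht.1)
  rw [sawtooth, if_neg h0, idx_eq hs ht]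

theorem piecewiseContinuous_sawtooth {s : ℕ → ℝ} (hs : StrictMono s)
    (hlim : Tendsto s atTop atTop) (N : ℕ → ℕ) (hN : ∀ m, 0 < N m) {x : ℕ → ℝ → E}
    (hx : ∀ m, Continuous (x m)) : PiecewiseContinuous (sawtooth s N x) := by
  have hmono : ∀ m : ℕ, StrictMono (fun t : ℝ => (N m : ℝ) * (t - s m) / (s (m + 1) - s m)) := by
    intro m t t' htt'
    have h1 : 0 < s (m + 1) - s m := by linarith [hs (Nat.lt_succ_self m)]
    have h2 : (0 : ℝ) < N m := by exact_mod_cast hN m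
    simp only
    gcongr
  have hcont : ∀ m : ℕ, Continuous (fun t : ℝ => (N m : ℝ) * (t - s m) / (s (m + 1) - s m)) := by
    intro m; fun_prop
  apply piecewiseContinuous_of_local
  · intro t ht
    by_cases h0 : t < s 0
    · refine ⟨fun _ => 0, continuous_const, ?_⟩
      have : ∀ᶠ τ in 𝓝[>] t, τ < s 0 :=
        mem_nhdsWithin_of_mem_nhds (Iio_mem_nhds h0)
      filter_upwards [this] with τ hτ
      rw [sawtooth, if_pos hτ]
    · obtain ⟨m, hm⟩ := exists_idx hlim (not_lt.1 h0)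
      set u : ℝ → ℝ := fun t : ℝ => (N m : ℝ) * (t - s m) / (s (m + 1) - s m) with hu
      refine ⟨fun τ => (u τ - (⌊u t⌋ : ℝ)) • x m τ, ?_, ?_⟩
      · exact ((hcont m).sub continuous_const).smul (hx m)
      · have h1 : ∀ᶠ τ in 𝓝[>] t, τ < s (m + 1) :=
          mem_nhdsWithin_of_mem_nhds (Iio_mem_nhds hm.2)
        have h2 : Tendsto u (𝓝[>] t) (𝓝[≥] (u t)) := by
          apply tendsto_nhdsWithin_iff.2
          refine ⟨((hcont m).tendsto t).mono_left nhdsWithin_le_nhds, ?_⟩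
          filter_upwards [self_mem_nhdsWithin] with τ hτ
          exact ((hmono m) hτ).le
        have h3 : ∀ᶠ τ in 𝓝[>] t, ⌊u τ⌋ = ⌊u t⌋ :=
          h2.eventually (tendsto_pure.1 (tendsto_floor_right_pure_floor (u t)))
        filter_upwards [h1, h3, self_mem_nhdsWithin] with τ h4 h5 h6
        have h6' : t < τ := h6
        rw [sawtooth_eq hs N x (m := m) ⟨hm.1.trans h6'.le, h4⟩]
        have h7 : Int.fract (u τ) = u τ - (⌊u t⌋ : ℝ) := by rw [← h5]; rfl
        rw [← h7]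
  · intro t ht
    by_cases h0 : t ≤ s 0
    · refine ⟨fun _ => 0, continuous_const, ?_⟩
      filter_upwards [self_mem_nhdsWithin] with τ hτ
      have hτ' : τ < t := hτ
      rw [sawtooth, if_pos (hτ'.trans_le h0)]
    · obtain ⟨m, hm⟩ := exists_idx' hlim (not_le.1 h0)
      set u : ℝ → ℝ := fun t : ℝ => (N m : ℝ) * (t - s m) / (s (m + 1) - s m) with hu
      refine ⟨fun τ => (u τ - ((⌈u t⌉ - 1 : ℤ) : ℝ)) • x m τ, ?_, ?_⟩
      · exact ((hcont m).sub continuous_const).smul (hx m)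
      · have h1 : ∀ᶠ τ in 𝓝[<] t, s m < τ :=
          mem_nhdsWithin_of_mem_nhds (Ioi_mem_nhds hm.1)
        have h2 : Tendsto u (𝓝[<] t) (𝓝[<] (u t)) := by
          apply tendsto_nhdsWithin_iff.2
          refine ⟨((hcont m).tendsto t).mono_left nhdsWithin_le_nhds, ?_⟩
          filter_upwards [self_mem_nhdsWithin] with τ hτ
          exact (hmono m) hτ
        have h3 : ∀ᶠ τ in 𝓝[<] t, ⌊u τ⌋ = ⌈u t⌉ - 1 :=
          h2.eventually (tendsto_pure.1 (tendsto_floor_left_pure_ceil_sub_one (u t)))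
        filter_upwards [h1, h3, self_mem_nhdsWithin] with τ h4 h5 h6
        have h6' : τ < t := h6
        rw [sawtooth_eq hs N x (m := m) ⟨h4.le, h6'.trans_le hm.2⟩]
        have h7 : Int.fract (u τ) = u τ - ((⌈u t⌉ - 1 : ℤ) : ℝ) := by rw [← h5]; rfl
        rw [← h7]

end Pool.Agent.MarkusYamabe
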