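import Pool.Agent.MarkusYamabe.Defs

open Set Filter Topology MeasureTheory intervalIntegral

namespace Pool.Agent.MarkusYamabe

variable {E : Type*} [NormedAddCommGroup E] [NormedSpace ℝ E]

/-- Integral Gronwall, forward. -/
theorem gronwall_fwd {y : ℝ → E} {a b c K : ℝ} (hK : 0 ≤ K)
    (hy : ContinuousOn y (Icc a b))
    (h : ∀ t ∈ Icc a b, ‖y t‖ ≤ c + K * ∫ τ in a..t, ‖y τ‖) :
    ∀ t ∈ Icc a b, ‖y t‖ ≤ c * Real.exp (K * (t - a)) := by
  intro t ht
  have hab : a ≤ b := ht.1.trans ht.2
  -- extend y to a continuous function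
  set z : ℝ → E := IccExtend hab (domRestrict (Icc a b) y) with hz
  have hzc : Continuous z := (continuousOn_iff_continuous_domRestrict.1 hy).Icc_extend'
  have hzy : ∀ τ ∈ Icc a b, z τ = y τ := by
    intro τ hτ
    rw [hz, IccExtend_of_mem hab _ hτ]
    rfl
  have hint : ∀ t ∈ Icc a b, ∫ τ in a..t, ‖y τ‖ = ∫ τ in a..t, ‖z τ‖ := by
    intro t ht
    apply intervalIntegral.integral_congr
    intro τ hτ
    rw [uIcc_of_le ht.1] at hτ
    simp only
    rw [hzy τ ⟨hτ.1, hτ.2.trans ht.2⟩]
  set u : ℝ → ℝ := fun t => c + K * ∫ τ in a..t, ‖z τ‖ with hu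
  have hud : ∀ t, HasDerivAt u (K * ‖z t‖) t := by
    intro t
    have h1 : HasDerivAt (fun t => ∫ τ in a..t, ‖z τ‖) (‖z t‖) t :=
      intervalIntegral.integral_hasDerivAt_right (hzc.norm.intervalIntegrable _ _)
        (hzc.norm.stronglyMeasurableAtFilter _ _) hzc.norm.continuousAt
    exact (h1.const_mul K).const_add c
  have hc0 : 0 ≤ c := by
    have := h a ⟨le_refl a, hab⟩
    simp at this
    exact (norm_nonneg _).trans this
  have hu0 : ∀ t ∈ Icc a b, 0 ≤ u t := by
    intro t ht
    have : 0 ≤ ∫ τ in a..t, ‖z τ‖ :=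
      intervalIntegral.integral_nonneg ht.1 (fun _ _ => norm_nonneg _)
    rw [hu]; positivity
  have key := norm_le_gronwallBound_of_norm_deriv_right_le (f := u) (f' := fun t => K * ‖z t‖)
    (δ := c) (K := K) (ε := 0) (a := a) (b := b)
    (fun t _ => (hud t).continuousAt.continuousWithinAt)
    (fun t _ => (hud t).hasDerivWithinAt)
    (by rw [hu]; simp [abs_of_nonneg hc0])
    (by
      intro t ht
      have ht' : t ∈ Icc a b := ⟨ht.1, ht.2.le⟩
      rw [add_zero, Real.norm_of_nonneg (mul_nonneg hK (norm_nonneg _)),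
        Real.norm_of_nonneg (hu0 t ht')]
      apply mul_le_mul_of_nonneg_left _ hK
      have := h t ht'
      rw [hint t ht', ← hzy t ht'] at this
      exact this)
    t ht
  rw [gronwallBound_ε0, Real.norm_of_nonneg (hu0 t ht)] at key
  have := h t ht
  rw [hint t ht] at this
  exact this.trans key

/-- Integral Gronwall, backward. -/
theorem gronwall_bwd {y : ℝ → E} {a b c K : ℝ} (hK : 0 ≤ K)
    (hy : ContinuousOn y (Icc a b))
    (h : ∀ t ∈ Icc a b, ‖y t‖ ≤ c + K * ∫ τ in t..b, ‖y τ‖) :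
    ∀ t ∈ Icc a b, ‖y t‖ ≤ c * Real.exp (K * (b - t)) := by
  intro t ht
  have hmaps : MapsTo (fun s => a + b - s) (Icc a b) (Icc a b) := by
    intro s hs
    constructor <;> simp only <;> linarith [hs.1, hs.2]
  have key := gronwall_fwd (y := fun s => y (a + b - s)) (a := a) (b := b) (c := c) hK
    (hy.comp (by fun_prop) hmaps)
    (by
      intro s hs
      have h1 := h (a + b - s) (hmaps hs)
      have h2 : ∫ τ in a..s, ‖y (a + b - τ)‖ = ∫ τ in (a + b - s)..b, ‖y τ‖ := by
        rw [intervalIntegral.integral_comp_sub_left (fun τ => ‖y τ‖) (a + b)]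
        simp
      rw [h2]
      exact h1)
    (a + b - t) (hmaps ht)
  rw [show a + b - (a + b - t) = t by ring, show a + b - t - a = b - t by ring] at key
  exact key

end Pool.Agent.MarkusYamabe
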