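import Pool.Agent.MarkusYamabe.Main

open Set Filter Topology MeasureTheory intervalIntegral

namespace Pool.Agent.MarkusYamabe

variable {E : Type*} [NormedAddCommGroup E] [NormedSpace ℝ E] [FiniteDimensional ℝ E]

variable {f : ℝ → E → E}

/-- Growth of solutions that stay in a ball. -/
theorem growth (hJ : Continuous (Function.uncurry (Jt f))) (h1 : CondG1 f)
    (h2 : CondG2 f) {t₀ : ℝ} (ht₀ : 0 ≤ t₀) {x : ℝ → E} (hx : IsForwardSolution f t₀ x)
    {η b C : ℝ} (hC0 : 0 ≤ C)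
    (hC : ∀ t ∈ Icc t₀ b, ∀ v : E, ‖v‖ ≤ η → ‖Jt f t v‖ ≤ C)
    (hxη : ∀ t ∈ Ico t₀ b, ‖x t‖ ≤ η) :
    ∀ t ∈ Icc t₀ b, ‖x t‖ ≤ ‖x t₀‖ * Real.exp (C * (t - t₀)) := by
  haveI : CompleteSpace E := FiniteDimensional.complete ℝ E
  have hxc := hx.continuous_max
  apply gronwall_fwd hC0 (hx.continuousOn.mono fun τ hτ => hτ.1)
  intro t ht
  rw [sol_integral hJ h1 h2 ht₀ hx le_rfl ht.1]
  refine (norm_add_le _ _).trans ?_
  gcongr
  have h4 := norm_integral_apply_le (a := t₀) (b := b) (C := C)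
    (A := fun τ => ∫ θ in (0:ℝ)..1, Jt f τ (θ • x (max τ t₀)))
    (y := fun τ => x (max τ t₀)) (by
      intro τ hτ
      have h5 := intervalIntegral.norm_integral_le_of_norm_le_const (a := 0) (b := 1)
        (f := fun θ : ℝ => Jt f τ (θ • x (max τ t₀))) (C := C) (by
          intro θ hθ
          rw [uIoc_of_le zero_le_one] at hθ
          apply hC τ ⟨hτ.1, hτ.2.le⟩
          rw [max_eq_left hτ.1, norm_smul, Real.norm_of_nonneg hθ.1.le]
          have h6 := hxη τ hτ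
          have h7 := norm_nonneg (x τ)
          nlinarith [hθ.2])
      simpa using h5) hxc.continuousOn le_rfl ht.1 ht.2
  refine h4.trans (le_of_eq ?_)
  congr 1
  apply intervalIntegral.integral_congr
  intro τ hτ
  rw [uIcc_of_le ht.1] at hτ
  simp only [max_eq_left hτ.1]

/-- First time at which a solution reaches norm `η`. -/
theorem first_time {t₀ : ℝ} {x : ℝ → E} (hx : IsForwardSolution f t₀ x) {η : ℝ}
    (h0 : ‖x t₀‖ < η) (h : ∃ t, t₀ ≤ t ∧ η ≤ ‖x t‖) :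
    ∃ t, t₀ ≤ t ∧ (∀ τ ∈ Ico t₀ t, ‖x τ‖ < η) ∧ η ≤ ‖x t‖ := by
  set S : Set ℝ := {t | t ∈ Ici t₀ ∧ η ≤ ‖x t‖} with hS
  have hSne : S.Nonempty := h
  have hSbd : BddBelow S := ⟨t₀, fun t ht => ht.1⟩
  have hScl : IsClosed S := by
    have h1 : ContinuousOn (fun t => ‖x t‖) (Ici t₀) := hx.continuousOn.norm
    have := h1.preimage_isClosed_of_isClosed isClosed_Ici (isClosed_Ici (a := η))
    exact this
  have hmem : sInf S ∈ S := hScl.csInf_mem hSne hSbd
  refine ⟨sInf S, hmem.1, ?_, hmem.2⟩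
  intro τ hτ
  by_contra hcon
  rw [not_lt] at hcon
  have : sInf S ≤ τ := csInf_le hSbd ⟨hτ.1, hcon⟩
  linarith [hτ.2]

/-- Stability. -/
theorem stable (hJ : Continuous (Function.uncurry (Jt f))) (h1 : CondG1 f)
    (h2 : CondG2 f) (h3 : CondG3 f) {t₀ : ℝ} (ht₀ : 0 ≤ t₀) {η : ℝ} (hη : 0 < η) :
    ∃ δ : ℝ, 0 < δ ∧ ∀ x : ℝ → E, IsForwardSolution f t₀ x → ‖x t₀‖ < δ →
      ∀ t : ℝ, t₀ ≤ t → ‖x t‖ < η := by
  haveI : CompleteSpace E := FiniteDimensional.complete ℝ E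
  haveI : ProperSpace E := FiniteDimensional.proper ℝ E
  by_contra hcon
  push Not at hcon
  -- bounds on the Jacobian
  have hbd : ∀ b : ℝ, ∃ C : ℝ, 0 ≤ C ∧ ∀ t ∈ Icc t₀ b, ∀ v : E, ‖v‖ ≤ η → ‖Jt f t v‖ ≤ C := by
    intro b
    have hK : IsCompact (Icc t₀ b ×ˢ Metric.closedBall (0:E) η) :=
      isCompact_Icc.prod (isCompact_closedBall _ _)
    obtain ⟨C0, hC0⟩ := hK.exists_bound_of_continuousOn hJ.continuousOn
    exact ⟨max C0 0, le_max_right _ _, fun t ht v hv =>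
      (hC0 (t, v) ⟨ht, by simpa using hv⟩).trans (le_max_left _ _)⟩
  choose C hC0 hC using hbd
  -- key step
  have key : ∀ s κ : ℝ, t₀ ≤ s → 0 < κ → ∃ (x : ℝ → E) (t' : ℝ), IsForwardSolution f t₀ x ∧
      s + 1 < t' ∧ (∀ τ ∈ Ico t₀ t', ‖x τ‖ < η) ∧ η ≤ ‖x t'‖ ∧ ‖x s‖ ≤ κ := by
    intro s κ hs hκ
    set D : ℝ := C (s + 1) with hD
    set e : ℝ := Real.exp (D * (s + 1 - t₀)) with he
    have hepos : 0 < e := Real.exp_pos _
    have he1 : 1 ≤ e := by
      apply Real.one_le_exp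
      apply mul_nonneg (hC0 _)
      linarith
    obtain ⟨x, hx, hxδ, t1, ht1, hηt1⟩ := hcon (min κ (η / 2) / e) (by positivity)
    have hx0 : ‖x t₀‖ * e < min κ (η / 2) := by rwa [lt_div_iff₀ hepos] at hxδ
    have hx0' : ‖x t₀‖ < η := by
      have h4 : ‖x t₀‖ ≤ ‖x t₀‖ * e := le_mul_of_one_le_right (norm_nonneg _) he1
      have h5 := min_le_right κ (η / 2)
      linarith
    obtain ⟨t', ht', hlt, hge⟩ := first_time hx hx0' ⟨t1, ht1, hηt1⟩
    have hst' : s + 1 < t' := by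
      by_contra h6
      rw [not_lt] at h6
      have h7 := growth hJ h1 h2 ht₀ hx (η := η) (b := t') (hC0 (s + 1))
        (fun t ht v hv => hC (s + 1) t ⟨ht.1, ht.2.trans h6⟩ v hv)
        (fun t ht => (hlt t ht).le) t' ⟨ht', le_rfl⟩
      have h8 : ‖x t₀‖ * Real.exp (C (s + 1) * (t' - t₀)) ≤ ‖x t₀‖ * e := by
        rw [he, hD]
        gcongr
        · exact hC0 _
      have h5 := min_le_right κ (η / 2)
      linarith
    refine ⟨x, t', hx, hst', hlt, hge, ?_⟩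
    have h7 := growth hJ h1 h2 ht₀ hx (η := η) (b := s + 1) (hC0 (s + 1)) (hC (s + 1))
      (fun t ht => (hlt t ⟨ht.1, ht.2.trans hst'⟩).le) s ⟨hs, by linarith⟩
    have h8 : ‖x t₀‖ * Real.exp (C (s + 1) * (s - t₀)) ≤ ‖x t₀‖ * e := by
      rw [he, hD]
      gcongr
      · exact hC0 _
      · linarith
    have h5 := min_le_left κ (η / 2)
    linarith
  choose! xs ts hsol hts hlt hge hκ using key
  -- the sequences
  set G : ℝ → ℝ := fun r => Real.exp (C r * (r - t₀)) with hG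
  have hGpos : ∀ r, 0 < G r := fun r => Real.exp_pos _
  set κ : ℕ → ℝ → ℝ := fun i r => η / (2 * (i + 1) * G r) with hκdef
  have hκpos : ∀ i r, 0 < κ i r := fun i r => by
    have := hGpos r
    simp only [hκdef]
    positivity
  set s : ℕ → ℝ := fun n => Nat.rec t₀ (fun i r => ts r (κ i r)) n with hs
  have hs0 : s 0 = t₀ := rfl
  have hssucc : ∀ i, s (i + 1) = ts (s i) (κ i (s i)) := fun i => rfl
  have hst : ∀ m, t₀ ≤ s m := by
    intro m
    induction m with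
    | zero => exact le_of_eq hs0.symm
    | succ m ih =>
      rw [hssucc]
      have := hts (s m) (κ m (s m)) ih (hκpos _ _)
      linarith
  have hstep : ∀ m, s m + 1 < s (m + 1) := fun m => by
    rw [hssucc]; exact hts (s m) (κ m (s m)) (hst m) (hκpos _ _)
  have hsmono : StrictMono s := strictMono_nat_of_lt_succ fun m => by linarith [hstep m]
  have hslim : Tendsto s atTop atTop := by
    have h4 : ∀ m : ℕ, t₀ + m ≤ s m := by
      intro m
      induction m with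
      | zero => simp [hs0]
      | succ m ih =>
        have := hstep m
        push_cast
        linarith
    apply tendsto_atTop_mono h4
    apply tendsto_atTop_add_const_left
    exact tendsto_natCast_atTop_atTop
  set x : ℕ → ℝ → E := fun m => xs (s m) (κ m (s m)) with hxdef
  have hxsol : ∀ m, IsForwardSolution f t₀ (x m) := fun m =>
    hsol (s m) (κ m (s m)) (hst m) (hκpos _ _)
  have hxlt : ∀ m, ∀ τ ∈ Ico t₀ (s (m + 1)), ‖x m τ‖ < η := fun m τ hτ => by
    rw [hssucc] at hτ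
    exact hlt (s m) (κ m (s m)) (hst m) (hκpos _ _) τ hτ
  have hxge : ∀ m, η ≤ ‖x m (s (m + 1))‖ := fun m => by
    rw [hssucc]
    exact hge (s m) (κ m (s m)) (hst m) (hκpos _ _)
  have hxκ : ∀ m, ‖x m (s m)‖ ≤ κ m (s m) := fun m =>
    hκ (s m) (κ m (s m)) (hst m) (hκpos _ _)
  set y : ℕ → ℝ → E := fun m t => x m (max t t₀) with hy
  have hyc : ∀ m, Continuous (y m) := fun m => (hxsol m).continuous_max
  have hyx : ∀ m t, t₀ ≤ t → y m t = x m t := fun m t ht => by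
    rw [hy]; simp only [max_eq_left ht]
  -- relaxation on each interval
  have hrel : ∀ m : ℕ, ∃ N : ℕ, 0 < N ∧ ∀ (A : ℝ → E →L[ℝ] E) (T : ℝ → ℝ → E →L[ℝ] E),
      IsEvolutionOperator A T →
      (∀ t ∈ Ico (s m) (s (m + 1)),
        A t = Jt f t (Int.fract (N * (t - s m) / (s (m + 1) - s m)) • y m t)) →
      ∀ t ∈ Icc (s m) (s (m + 1)), ‖T (s m) t (y m t) - y m (s m)‖ ≤ κ m (s m) := by
    intro m
    apply relaxation hJ (hyc m) (ht₀.trans (hst m)) (hsmono (Nat.lt_succ_self m)) _ (hκpos _ _)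
    intro a ha b hb hab
    have ha' : t₀ ≤ a := (hst m).trans ha.1
    rw [hyx m a ha', hyx m b (ha'.trans hab)]
    exact sol_integral hJ h1 h2 ht₀ (hxsol m) ha' hab
  choose N hN hrelN using hrel
  -- the control
  set ω : ℝ → E := sawtooth s N y with hω
  have hωpc : PiecewiseContinuous ω := piecewiseContinuous_sawtooth hsmono hslim N hN hyc
  obtain ⟨-, K, γ, ε, hK, hε, hγ, -, T, hT, -, hbound, -⟩ := h3 ω hωpc
  set A : ℝ → E →L[ℝ] E := fun t => fderiv ℝ (f t) (ω t) with hA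
  have hAeq : ∀ m, ∀ t ∈ Ico (s m) (s (m + 1)),
      A t = Jt f t (Int.fract (N m * (t - s m) / (s (m + 1) - s m)) • y m t) := by
    intro m t ht
    rw [hA]
    simp only
    rw [← Jt_eq f (ht₀.trans ((hst m).trans ht.1)), hω, sawtooth_eq hsmono N _ ht]
  have hAC : ∀ m, ∀ t ∈ Ico t₀ (s m), ‖A t‖ ≤ C (s m) := by
    intro m t ht
    obtain ⟨k, hk⟩ := exists_idx hslim (by rw [hs0]; exact ht.1 : s 0 ≤ t)
    rw [hAeq k t hk]
    apply hC (s m) t ⟨ht.1, ht.2.le⟩
    rw [norm_smul, Real.norm_of_nonneg (Int.fract_nonneg _), hyx k t ht.1]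
    have h4 := hxlt k t ⟨ht.1, hk.2⟩
    have h5 := norm_nonneg (x k t)
    nlinarith [(Int.fract_lt_one ((N k : ℝ) * (t - s k) / (s (k + 1) - s k))),
      (Int.fract_nonneg ((N k : ℝ) * (t - s k) / (s (k + 1) - s k)))]
  have hTG : ∀ m, ∀ v : E, ‖T t₀ (s m) v‖ ≤ G (s m) * ‖v‖ := by
    intro m v
    have := hT.norm_apply_bwd ht₀ (hC0 (s m)) (hAC m) (s := s m) (t := t₀) le_rfl (hst m) le_rfl v
    rw [mul_comm] at this
    exact this
  -- bound for the forward evolution from t₀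
  have hTbd : ∀ t, t₀ ≤ t → ∀ v : E, ‖T t t₀ v‖ ≤ K * Real.exp (ε * t₀) * ‖v‖ := by
    intro t ht v
    have h5 := hbound t₀ ht₀ t ht
    rw [ContinuousLinearMap.comp_id] at h5
    calc ‖T t t₀ v‖ ≤ ‖T t t₀‖ * ‖v‖ := (T t t₀).le_opNorm _
      _ ≤ (K * Real.exp (-γ * (t - t₀) + ε * t₀)) * ‖v‖ := by gcongr
      _ ≤ K * Real.exp (ε * t₀) * ‖v‖ := by
        gcongr
        nlinarith
  set M : ℝ := K * Real.exp (ε * t₀) with hM
  have hMpos : 0 < M := by positivity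
  have hcontra : ∀ m : ℕ, (m : ℝ) + 1 ≤ M := by
    intro m
    have h4 := hrelN m A T hT (hAeq m) (s (m + 1)) ⟨(hsmono (Nat.lt_succ_self m)).le, le_rfl⟩
    rw [hyx m _ (hst m), hyx m _ (hst (m + 1))] at h4
    set u : E := T (s m) (s (m + 1)) (x m (s (m + 1))) with hu
    have h5 : ‖u‖ ≤ 2 * κ m (s m) := by
      have h6 := norm_add_le (u - x m (s m)) (x m (s m))
      rw [sub_add_cancel] at h6
      linarith [hxκ m]
    set v : E := T t₀ (s m) u with hv
    have h6 : ‖v‖ ≤ η / (m + 1) := by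
      refine (hTG m u).trans ?_
      calc G (s m) * ‖u‖ ≤ G (s m) * (2 * κ m (s m)) := by gcongr
        _ = η / (m + 1) := by
          simp only [hκdef]
          have := (hGpos (s m)).ne'
          field_simp
    have h7 : T (s (m + 1)) t₀ v = x m (s (m + 1)) := by
      rw [hv, hu, hT.comp_apply (ht₀.trans (hst (m + 1))) (ht₀.trans (hst m)) ht₀,
        hT.comp_apply (ht₀.trans (hst (m + 1))) ht₀ (ht₀.trans (hst (m + 1))),
        hT.self_apply (ht₀.trans (hst (m + 1)))]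
    have h8 := hTbd (s (m + 1)) (hst (m + 1)) v
    rw [h7] at h8
    have h9 : η ≤ M * (η / (m + 1)) := (hxge m).trans (h8.trans (by gcongr))
    have h10 : (0:ℝ) < m + 1 := by positivity
    rw [mul_div_assoc', le_div_iff₀ h10, mul_comm M η] at h9
    exact le_of_mul_le_mul_left h9 hη
  obtain ⟨n, hn⟩ := exists_nat_gt M
  have := hcontra n
  linarith

end Pool.Agent.MarkusYamabe
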