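import Pool.Agent.MarkusYamabe.JointCont
import Pool.Agent.MarkusYamabe.Stable

open Set Filter Topology

namespace Pool.Agent.MarkusYamabe

variable {E : Type*} [NormedAddCommGroup E] [NormedSpace ℝ E] [CompleteSpace E]

/-- Under (G1), if `t ↦ Jf(t, ω(t))` is piecewise continuous for every piecewise continuous `ω`,
then `Jf` is jointly continuous. -/
theorem continuous_Jt {f : ℝ → E → E} (h1 : CondG1 f)
    (h3 : ∀ ω : ℝ → E, PiecewiseContinuous ω →
      PiecewiseContinuous (fun t => fderiv ℝ (f t) (ω t))) :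
    Continuous (Function.uncurry (Jt f)) := by
  have hcd : ∀ t : ℝ, 0 ≤ t → ∀ x, HasFDerivAt (f t) (fderiv ℝ (f t) x) x := fun t ht x =>
    ((h1.contDiff t ht).differentiable (by norm_num)).differentiableAt.hasFDerivAt
  have hcx : ∀ x : E, ContinuousOn (fun t => f t x) (Ici 0) := by
    intro x
    have : ContinuousOn (fun t : ℝ => (t, x)) (Ici 0) := by fun_prop
    exact h1.cont.comp this (fun t ht => ⟨ht, mem_univ _⟩)
  -- right limits
  have hR : ∀ t₀ : ℝ, 0 ≤ t₀ → ∀ x₀ : E,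
      Tendsto (fun p : ℝ × E => fderiv ℝ (f p.1) p.2) (𝓝[>] t₀ ×ˢ 𝓝 x₀)
        (𝓝 (fderiv ℝ (f t₀) x₀)) := by
    intro t₀ ht₀ x₀
    have hadd : Tendsto (fun r : ℝ => t₀ + r) (𝓝[>] 0) (𝓝[>] t₀) := by
      apply tendsto_nhdsWithin_iff.2
      constructor
      · have : Tendsto (fun r : ℝ => t₀ + r) (𝓝 0) (𝓝 (t₀ + 0)) :=
          (continuous_const.add continuous_id).tendsto 0
        rw [add_zero] at this
        exact this.mono_left nhdsWithin_le_nhds
      · filter_upwards [self_mem_nhdsWithin] with r hr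
        simp only [mem_Ioi] at hr ⊢
        linarith
    obtain ⟨l, hl⟩ := joint_limit (g := fun r x => fderiv ℝ (f (t₀ + r)) x) (by
      intro ω hω
      have h4 := (h3 (fun t => ω (t - t₀)) (piecewiseContinuous_of_continuous
        (by fun_prop))).2.1 t₀ ht₀
      obtain ⟨L, hL⟩ := h4
      refine ⟨L, (hL.comp hadd).congr fun r => ?_⟩
      simp only [Function.comp, add_sub_cancel_left]) x₀
    have hD := deriv_eq_of_joint_limit (f := fun r x => f (t₀ + r) x)
      (J := fun r x => fderiv ℝ (f (t₀ + r)) x) (D := fderiv ℝ (f t₀) x₀) (l := l) (x₀ := x₀)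
      (by
        filter_upwards [self_mem_nhdsWithin] with r hr x
        exact hcd (t₀ + r) (by simp only [mem_Ioi] at hr; linarith) x)
      (by simpa using hcd t₀ ht₀ x₀)
      (by
        intro x
        have h5 : Tendsto (fun t => f t x) (𝓝[>] t₀) (𝓝 (f t₀ x)) :=
          (hcx x t₀ ht₀).mono_left (nhdsWithin_mono _ (fun τ hτ => ht₀.trans (le_of_lt hτ)))
        simpa [Function.comp_def] using h5.comp hadd)
      hl
    have hsub : Tendsto (fun p : ℝ × E => (p.1 - t₀, p.2)) (𝓝[>] t₀ ×ˢ 𝓝 x₀)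
        (𝓝[>] 0 ×ˢ 𝓝 x₀) := by
      have hm : Tendsto (Prod.map (fun r : ℝ => r - t₀) (id : E → E)) (𝓝[>] t₀ ×ˢ 𝓝 x₀)
          (𝓝[>] 0 ×ˢ 𝓝 x₀) := by
        refine Tendsto.prodMap ?_ tendsto_id
        apply tendsto_nhdsWithin_iff.2
        constructor
        · have : Tendsto (fun r : ℝ => r - t₀) (𝓝 t₀) (𝓝 (t₀ - t₀)) :=
            (continuous_id.sub continuous_const).tendsto t₀
          rw [sub_self] at this
          exact this.mono_left nhdsWithin_le_nhds
        · filter_upwards [self_mem_nhdsWithin] with r hr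
          simp only [mem_Ioi] at hr ⊢
          linarith
      exact hm
    rw [hD]
    refine (hl.comp hsub).congr fun p => ?_
    simp only [Function.comp, Function.uncurry, add_sub_cancel]
  -- left limits
  have hL : ∀ t₀ : ℝ, 0 < t₀ → ∀ x₀ : E,
      Tendsto (fun p : ℝ × E => fderiv ℝ (f p.1) p.2) (𝓝[<] t₀ ×ˢ 𝓝 x₀)
        (𝓝 (fderiv ℝ (f t₀) x₀)) := by
    intro t₀ ht₀ x₀
    have hadd : Tendsto (fun r : ℝ => t₀ - r) (𝓝[>] 0) (𝓝[<] t₀) := by
      apply tendsto_nhdsWithin_iff.2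
      constructor
      · have : Tendsto (fun r : ℝ => t₀ - r) (𝓝 0) (𝓝 (t₀ - 0)) :=
          (continuous_const.sub continuous_id).tendsto 0
        rw [sub_zero] at this
        exact this.mono_left nhdsWithin_le_nhds
      · filter_upwards [self_mem_nhdsWithin] with r hr
        simp only [mem_Ioi, mem_Iio] at hr ⊢
        linarith
    obtain ⟨l, hl⟩ := joint_limit (g := fun r x => fderiv ℝ (f (t₀ - r)) x) (by
      intro ω hω
      have h4 := (h3 (fun t => ω (t₀ - t)) (piecewiseContinuous_of_continuous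
        (by fun_prop))).2.2 t₀ ht₀
      obtain ⟨L, hL⟩ := h4
      refine ⟨L, (hL.comp hadd).congr fun r => ?_⟩
      simp only [Function.comp, sub_sub_cancel]) x₀
    have hD := deriv_eq_of_joint_limit (f := fun r x => f (t₀ - r) x)
      (J := fun r x => fderiv ℝ (f (t₀ - r)) x) (D := fderiv ℝ (f t₀) x₀) (l := l) (x₀ := x₀)
      (by
        filter_upwards [Ioo_mem_nhdsGT ht₀] with r hr x
        exact hcd (t₀ - r) (by linarith [hr.2]) x)
      (by simpa using hcd t₀ ht₀.le x₀)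
      (by
        intro x
        have h5 : Tendsto (fun t => f t x) (𝓝[<] t₀) (𝓝 (f t₀ x)) := by
          have h6 : ContinuousAt (fun t => f t x) t₀ := (hcx x).continuousAt (Ici_mem_nhds ht₀)
          exact h6.tendsto.mono_left nhdsWithin_le_nhds
        simpa [Function.comp_def] using h5.comp hadd)
      hl
    have hsub : Tendsto (fun p : ℝ × E => (t₀ - p.1, p.2)) (𝓝[<] t₀ ×ˢ 𝓝 x₀)
        (𝓝[>] 0 ×ˢ 𝓝 x₀) := by
      have hm : Tendsto (Prod.map (fun r : ℝ => t₀ - r) (id : E → E)) (𝓝[<] t₀ ×ˢ 𝓝 x₀)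
          (𝓝[>] 0 ×ˢ 𝓝 x₀) := by
        refine Tendsto.prodMap ?_ tendsto_id
        apply tendsto_nhdsWithin_iff.2
        constructor
        · have : Tendsto (fun r : ℝ => t₀ - r) (𝓝 t₀) (𝓝 (t₀ - t₀)) :=
            (continuous_const.sub continuous_id).tendsto t₀
          rw [sub_self] at this
          exact this.mono_left nhdsWithin_le_nhds
        · filter_upwards [self_mem_nhdsWithin] with r hr
          simp only [mem_Ioi, mem_Iio] at hr ⊢
          linarith
      exact hm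
    rw [hD]
    refine (hl.comp hsub).congr fun p => ?_
    simp only [Function.comp, Function.uncurry, sub_sub_cancel]
  -- at the point itself
  have h0 : ∀ t₀ : ℝ, 0 ≤ t₀ → ∀ x₀ : E,
      Tendsto (fun p : ℝ × E => fderiv ℝ (f p.1) p.2) (pure t₀ ×ˢ 𝓝 x₀)
        (𝓝 (fderiv ℝ (f t₀) x₀)) := by
    intro t₀ ht₀ x₀
    have h4 : Continuous (fderiv ℝ (f t₀)) := (h1.contDiff t₀ ht₀).continuous_fderiv (by norm_num)
    rw [pure_prod, tendsto_map'_iff]
    exact h4.tendsto x₀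
  -- combine
  have hcont : ContinuousOn (fun p : ℝ × E => fderiv ℝ (f p.1) p.2) (Ici 0 ×ˢ univ) := by
    rintro ⟨t₀, x₀⟩ ⟨ht₀, -⟩
    have ht₀' : 0 ≤ t₀ := ht₀
    rw [ContinuousWithinAt, nhdsWithin_prod_eq, nhdsWithin_univ]
    have hle : 𝓝[Ici 0] t₀ ≤ (pure t₀ ⊔ 𝓝[>] t₀) ⊔ (if 0 < t₀ then 𝓝[<] t₀ else ⊥) := by
      split_ifs with h
      · rw [← nhdsWithin_insert, Ioi_insert, sup_comm, nhdsLT_sup_nhdsGE]
        exact nhdsWithin_le_nhds
      · have h5 : t₀ = 0 := le_antisymm (not_lt.1 h) ht₀'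
        rw [← nhdsWithin_insert, Ioi_insert, h5, sup_bot_eq]
    have hmono : 𝓝[Ici 0] t₀ ×ˢ 𝓝 x₀ ≤
        ((pure t₀ ⊔ 𝓝[>] t₀) ⊔ (if 0 < t₀ then 𝓝[<] t₀ else ⊥)) ×ˢ 𝓝 x₀ :=
      prod_mono hle le_rfl
    refine Tendsto.mono_left ?_ hmono
    rw [sup_prod, sup_prod, tendsto_sup, tendsto_sup]
    refine ⟨⟨h0 t₀ ht₀' x₀, hR t₀ ht₀' x₀⟩, ?_⟩
    split_ifs with h
    · exact hL t₀ h x₀
    · rw [bot_prod]
      exact tendsto_bot
  have hmax : Continuous (fun p : ℝ × E => (max p.1 0, p.2)) := by fun_prop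
  exact hcont.comp_continuous hmax (fun p => ⟨mem_Ici.2 (le_max_right _ _), mem_univ _⟩)

end Pool.Agent.MarkusYamabe
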