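import Pool.Agent.MarkusYamabe.Defs
import Pool.Agent.MarkusYamabe.Glue

open Set Filter Topology

namespace Pool.Agent.MarkusYamabe

theorem piecewiseContinuous_of_continuous {X : Type*} [TopologicalSpace X] {g : ℝ → X}
    (hg : Continuous g) : PiecewiseContinuous g := by
  refine ⟨fun b => ?_, fun t _ => ⟨g t, (hg.tendsto t).mono_left nhdsWithin_le_nhds⟩,
    fun t _ => ⟨g t, (hg.tendsto t).mono_left nhdsWithin_le_nhds⟩⟩
  convert Set.finite_empty (α := ℝ)
  ext t
  simp only [mem_setOf_eq, mem_empty_iff_false, iff_false, not_and, not_not]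
  intro _
  exact hg.continuousWithinAt

variable {E F : Type*} [NormedAddCommGroup E] [NormedSpace ℝ E] [CompleteSpace E]
  [NormedAddCommGroup F]

/-- If `g(r, ω(r))` converges as `r → 0+` for every continuous `ω`, then `g` converges jointly. -/
theorem joint_limit {g : ℝ → E → F}
    (hg : ∀ ω : ℝ → E, Continuous ω → ∃ L, Tendsto (fun r => g r (ω r)) (𝓝[>] 0) (𝓝 L))
    (x₀ : E) :
    ∃ l, Tendsto (Function.uncurry g) (𝓝[>] 0 ×ˢ 𝓝 x₀) (𝓝 l) := by
  obtain ⟨l, hl⟩ := hg (fun _ => x₀) continuous_const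
  refine ⟨l, ?_⟩
  by_contra hcon
  rw [Metric.tendsto_nhds] at hcon
  push Not at hcon
  obtain ⟨ε, hε, hfreq⟩ := hcon
  have hpick : ∀ δ : ℝ, 0 < δ → ∃ p : ℝ × E, 0 < p.1 ∧ p.1 < δ ∧ ‖p.2 - x₀‖ < δ ∧
      ε ≤ dist (g p.1 p.2) l := by
    intro δ hδ
    have h1 : ∀ᶠ p in (𝓝[>] (0:ℝ) ×ˢ 𝓝 x₀), (0 < p.1 ∧ p.1 < δ) ∧ ‖p.2 - x₀‖ < δ := by
      have h2 : ∀ᶠ r in 𝓝[>] (0:ℝ), 0 < r ∧ r < δ := by
        filter_upwards [Ioo_mem_nhdsGT hδ] with r hr using hr
      have h3 : ∀ᶠ x in 𝓝 x₀, ‖x - x₀‖ < δ := by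
        filter_upwards [Metric.ball_mem_nhds x₀ hδ] with x hx
        rwa [Metric.mem_ball, dist_eq_norm] at hx
      exact h2.prod_mk h3
    obtain ⟨p, hp, h2⟩ := (hfreq.and_eventually h1).exists
    exact ⟨p, h2.1.1, h2.1.2, h2.2, hp⟩
  choose! pick hp0 hplt hpx hpε using hpick
  -- recursive choice of radii
  set δs : ℕ → ℝ := fun n => Nat.rec 1 (fun k d => min ((pick d).1 / 2) ((1 / 2) ^ (k + 1))) n
    with hδs
  have hδ0 : δs 0 = 1 := rfl
  have hδsucc : ∀ k, δs (k + 1) = min ((pick (δs k)).1 / 2) ((1 / 2) ^ (k + 1)) := fun k => rfl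
  have hδpos : ∀ k, 0 < δs k := by
    intro k
    induction k with
    | zero => rw [hδ0]; norm_num
    | succ k ih =>
      rw [hδsucc]
      have := hp0 _ ih
      positivity
  have hδle : ∀ k, δs k ≤ (1 / 2) ^ k := by
    intro k
    cases k with
    | zero => rw [hδ0]; norm_num
    | succ k => rw [hδsucc]; exact min_le_right _ _
  set t : ℕ → ℝ := fun k => (pick (δs k)).1 with ht
  set x : ℕ → E := fun k => (pick (δs k)).2 with hx
  have ht0 : ∀ k, 0 < t k := fun k => hp0 _ (hδpos k)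
  have htle : ∀ k, t k ≤ (1 / 2) ^ k := fun k => (hplt _ (hδpos k)).le.trans (hδle k)
  have hthalf : ∀ k, t (k + 1) ≤ t k / 2 := by
    intro k
    have h1 := (hplt _ (hδpos (k + 1))).le
    rw [hδsucc] at h1
    exact h1.trans (min_le_left _ _)
  have htanti : ∀ j k, j < k → t k ≤ t j / 2 := by
    intro j k hjk
    induction k with
    | zero => omega
    | succ k ih =>
      rcases Nat.lt_succ_iff_lt_or_eq.1 hjk with h | h
      · have := ih h
        have h2 := hthalf k
        have h3 := ht0 k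
        linarith
      · subst h; exact hthalf j
  have hxle : ∀ k, ‖x k - x₀‖ ≤ (1 / 2) ^ k := fun k => (hpx _ (hδpos k)).le.trans (hδle k)
  have htε : ∀ k, ε ≤ dist (g (t k) (x k)) l := fun k => hpε _ (hδpos k)
  have htlim : Tendsto t atTop (𝓝[>] 0) := by
    apply tendsto_nhdsWithin_iff.2
    refine ⟨?_, Eventually.of_forall fun k => ht0 k⟩
    apply squeeze_zero (fun k => (ht0 k).le) htle
    exact tendsto_pow_atTop_nhds_zero_of_lt_one (by norm_num) (by norm_num)
  -- bumps
  set φ : ℕ → ℝ → ℝ := fun k r => max 0 (1 - |r - t k| / (t k / 4)) with hφ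
  have hφc : ∀ k, Continuous (φ k) := fun k => by
    simp only [hφ]
    fun_prop
  have hφ01 : ∀ k r, 0 ≤ φ k r ∧ φ k r ≤ 1 := by
    intro k r
    refine ⟨le_max_left _ _, max_le zero_le_one ?_⟩
    have : 0 ≤ |r - t k| / (t k / 4) := div_nonneg (abs_nonneg _) (by linarith [ht0 k])
    linarith
  have hφzero : ∀ k r, t k / 4 ≤ |r - t k| → φ k r = 0 := by
    intro k r h
    have h1 : 0 < t k / 4 := by linarith [ht0 k]
    apply max_eq_left
    have : 1 ≤ |r - t k| / (t k / 4) := by rwa [le_div_iff₀ h1, one_mul]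
    linarith
  set ω : ℝ → E := fun r => x₀ + ∑' k, φ k r • (x k - x₀) with hω
  have hωc : Continuous ω := by
    apply continuous_const.add
    apply continuous_tsum (u := fun k : ℕ => (1 / 2 : ℝ) ^ k)
    · intro k
      exact (hφc k).smul continuous_const
    · exact summable_geometric_two
    · intro k r
      rw [norm_smul, Real.norm_of_nonneg (hφ01 k r).1]
      calc φ k r * ‖x k - x₀‖ ≤ 1 * (1 / 2) ^ k := by
            apply mul_le_mul (hφ01 k r).2 (hxle k) (norm_nonneg _) zero_le_one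
        _ = _ := one_mul _
  have hωt : ∀ j, ω (t j) = x j := by
    intro j
    simp only [hω]
    rw [tsum_eq_single j]
    · have : φ j (t j) = 1 := by simp [hφ]
      rw [this, one_smul]
      abel
    · intro k hk
      rw [hφzero k (t j), zero_smul]
      rcases lt_or_gt_of_ne hk with h | h
      · have := htanti k j h
        rw [abs_sub_comm, abs_of_nonneg (by linarith [ht0 k])]
        linarith [ht0 k]
      · have := htanti j k h
        rw [abs_of_nonneg (by linarith [ht0 j])]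
        linarith [ht0 k]
  have hωτ : ∀ j, ω (7 / 10 * t j) = x₀ := by
    intro j
    simp only [hω]
    have : ∀ k, φ k (7 / 10 * t j) • (x k - x₀) = 0 := by
      intro k
      rw [hφzero k, zero_smul]
      rcases lt_trichotomy k j with h | h | h
      · have := htanti k j h
        rw [abs_sub_comm, abs_of_nonneg (by linarith [ht0 k])]
        linarith [ht0 k, ht0 j]
      · subst h
        rw [abs_sub_comm, abs_of_nonneg (by linarith [ht0 k])]
        linarith [ht0 k]
      · have := htanti j k h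
        rw [abs_of_nonneg (by linarith [ht0 j])]
        linarith [ht0 k, ht0 j]
    simp [this]
  obtain ⟨L, hL⟩ := hg ω hωc
  have hτlim : Tendsto (fun j => 7 / 10 * t j) atTop (𝓝[>] 0) := by
    apply tendsto_nhdsWithin_iff.2
    constructor
    · have h1 := (tendsto_nhdsWithin_iff.1 htlim).1.const_mul (7 / 10)
      simpa using h1
    · exact Eventually.of_forall fun k => by
        have := ht0 k
        simp only [mem_Ioi]
        positivity
  have h1 : Tendsto (fun j => g (7 / 10 * t j) x₀) atTop (𝓝 L) := by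
    have := hL.comp hτlim
    refine this.congr fun j => ?_
    simp only [Function.comp]
    rw [hωτ j]
  have h2 : Tendsto (fun j => g (7 / 10 * t j) x₀) atTop (𝓝 l) := hl.comp hτlim
  have hLl : L = l := tendsto_nhds_unique h1 h2
  have h3 : Tendsto (fun j => g (t j) (x j)) atTop (𝓝 l) := by
    have := hL.comp htlim
    rw [hLl] at this
    refine this.congr fun j => ?_
    simp only [Function.comp]
    rw [hωt j]
  obtain ⟨j, hj⟩ := ((Metric.tendsto_nhds.1 h3) ε hε).exists
  linarith [htε j]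


/-- Identification of the limit of the derivatives. -/
theorem deriv_eq_of_joint_limit {f : ℝ → E → E} {J : ℝ → E → E →L[ℝ] E} {x₀ : E}
    {D l : E →L[ℝ] E}
    (hf : ∀ᶠ r in 𝓝[>] (0:ℝ), ∀ x, HasFDerivAt (f r) (J r x) x)
    (hf0 : HasFDerivAt (f 0) D x₀)
    (hlim : ∀ x, Tendsto (fun r => f r x) (𝓝[>] 0) (𝓝 (f 0 x)))
    (hJ : Tendsto (Function.uncurry J) (𝓝[>] 0 ×ˢ 𝓝 x₀) (𝓝 l)) : D = l := by
  have key : ∀ ε : ℝ, 0 < ε → ‖D - l‖ ≤ ε := by
    intro ε hε
    have h1 : ∀ᶠ p in 𝓝[>] (0:ℝ) ×ˢ 𝓝 x₀, ‖J p.1 p.2 - l‖ ≤ ε := by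
      have := (Metric.tendsto_nhds.1 hJ) ε hε
      filter_upwards [this] with p hp
      rw [dist_eq_norm] at hp
      exact hp.le
    obtain ⟨pa, hpa, pb, hpb, hab⟩ := Filter.eventually_prod_iff.1 h1
    obtain ⟨δ, hδ, hδb⟩ := Metric.eventually_nhds_iff_ball.1 hpb
    -- Lipschitz estimate for small r > 0
    have h2 : ∀ᶠ r in 𝓝[>] (0:ℝ), ∀ u ∈ Metric.ball x₀ δ, ∀ v ∈ Metric.ball x₀ δ,
        ‖f r v - f r u - l (v - u)‖ ≤ ε * ‖v - u‖ := by
      filter_upwards [hf, hpa] with r hr hra u hu v hv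
      exact Convex.norm_image_sub_le_of_norm_hasFDerivWithin_le'
        (f := f r) (f' := J r) (φ := l) (s := Metric.ball x₀ δ)
        (fun x _ => (hr x).hasFDerivWithinAt) (fun x hx => hab hra (hδb x hx))
        (convex_ball _ _) hu hv
    have h3 : ∀ u ∈ Metric.ball x₀ δ, ∀ v ∈ Metric.ball x₀ δ,
        ‖f 0 v - f 0 u - l (v - u)‖ ≤ ε * ‖v - u‖ := by
      intro u hu v hv
      have h4 : Tendsto (fun r => ‖f r v - f r u - l (v - u)‖) (𝓝[>] 0)
          (𝓝 ‖f 0 v - f 0 u - l (v - u)‖) :=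
        (((hlim v).sub (hlim u)).sub tendsto_const_nhds).norm
      apply le_of_tendsto h4
      filter_upwards [h2] with r hr using hr u hu v hv
    have h5 : HasFDerivAt (fun x => f 0 x - l x) (D - l) x₀ := hf0.sub l.hasFDerivAt
    have h6 : LipschitzOnWith (⟨ε, hε.le⟩ : NNReal) (fun x => f 0 x - l x)
        (Metric.ball x₀ δ) := by
      apply LipschitzOnWith.of_dist_le_mul
      intro v hv u hu
      rw [dist_eq_norm, dist_eq_norm]
      have := h3 u hu v hv
      rw [map_sub] at this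
      refine le_trans (le_of_eq ?_) this
      congr 1
      abel
    exact h5.le_of_lipschitzOn (Metric.ball_mem_nhds x₀ hδ) h6
  have : ‖D - l‖ ≤ 0 := le_of_forall_pos_le_add fun ε hε => by
    rw [zero_add]; exact key ε hε
  rw [norm_le_zero_iff, sub_eq_zero] at this
  exact this

end Pool.Agent.MarkusYamabe
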