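import Pool.Agent.MarkusYamabe.Relaxation
import Pool.Agent.MarkusYamabe.Glue

open Set Filter Topology MeasureTheory intervalIntegral

namespace Pool.Agent.MarkusYamabe

variable {E : Type*} [NormedAddCommGroup E] [NormedSpace ℝ E] [CompleteSpace E]

/-- The Jacobian, extended to negative times by freezing time at `0`. -/
noncomputable def Jt (f : ℝ → E → E) (t : ℝ) (x : E) : E →L[ℝ] E := fderiv ℝ (f (max t 0)) x

theorem Jt_eq (f : ℝ → E → E) {t : ℝ} (ht : 0 ≤ t) (x : E) : Jt f t x = fderiv ℝ (f t) x := by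
  rw [Jt, max_eq_left ht]

variable {f : ℝ → E → E}

theorem IsForwardSolution.continuousOn {t₀ : ℝ} {x : ℝ → E} (hx : IsForwardSolution f t₀ x) :
    ContinuousOn x (Ici t₀) := fun t ht => (hx t ht).continuousWithinAt

theorem IsForwardSolution.continuous_max {t₀ : ℝ} {x : ℝ → E} (hx : IsForwardSolution f t₀ x) :
    Continuous (fun t => x (max t t₀)) :=
  hx.continuousOn.comp_continuous (by fun_prop) (fun t => mem_Ici.2 (le_max_right _ _))

theorem apply_eq_integral (hJ : Continuous (Function.uncurry (Jt f))) (h1 : CondG1 f)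
    (h2 : CondG2 f) {t : ℝ} (ht : 0 ≤ t) (x : E) :
    f t x = (∫ θ in (0:ℝ)..1, Jt f t (θ • x)) x := by
  have hc : Continuous (fun θ : ℝ => Jt f t (θ • x)) := by
    have : Continuous (fun θ : ℝ => (t, θ • x)) := by fun_prop
    exact hJ.comp this
  have hd : ∀ θ : ℝ, HasDerivAt (fun θ : ℝ => f t (θ • x)) (Jt f t (θ • x) x) θ := by
    intro θ
    have ha : HasFDerivAt (f t) (fderiv ℝ (f t) (θ • x)) (θ • x) :=
      ((h1.contDiff t ht).differentiable (by norm_num)).differentiableAt.hasFDerivAt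
    have hb : HasDerivAt (fun θ : ℝ => θ • x) x θ := by
      simpa using (hasDerivAt_id θ).smul_const x
    rw [Jt_eq f ht]
    exact ha.comp_hasDerivAt θ hb
  have hi : ∫ θ in (0:ℝ)..1, Jt f t (θ • x) x = f t ((1:ℝ) • x) - f t ((0:ℝ) • x) := by
    apply intervalIntegral.integral_eq_sub_of_hasDerivAt (fun θ _ => hd θ)
    exact (hc.clm_apply continuous_const).intervalIntegrable _ _
  rw [← ContinuousLinearMap.intervalIntegral_apply (hc.intervalIntegrable _ _)] at hi
  rw [hi, one_smul, zero_smul, h2 t ht, sub_zero]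

theorem sol_integral (hJ : Continuous (Function.uncurry (Jt f))) (h1 : CondG1 f)
    (h2 : CondG2 f) {t₀ : ℝ} (ht₀ : 0 ≤ t₀) {x : ℝ → E} (hx : IsForwardSolution f t₀ x)
    {s t : ℝ} (hs : t₀ ≤ s) (hst : s ≤ t) :
    x t = x s + ∫ τ in s..t,
      (∫ θ in (0:ℝ)..1, Jt f τ (θ • x (max τ t₀))) (x (max τ t₀)) := by
  have hxc := hx.continuous_max
  have hF : Continuous (Function.uncurry fun τ θ : ℝ => Jt f τ (θ • x (max τ t₀))) := by
    have : Continuous (fun p : ℝ × ℝ => (p.1, p.2 • x (max p.1 t₀))) := by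
      have h0 : Continuous (fun p : ℝ × ℝ => x (max p.1 t₀)) := hxc.comp continuous_fst
      exact continuous_fst.prodMk (continuous_snd.smul h0)
    exact hJ.comp this
  have hB : Continuous (fun τ : ℝ => ∫ θ in (0:ℝ)..1, Jt f τ (θ • x (max τ t₀))) :=
    continuous_average hF
  have hint : IntervalIntegrable (fun τ : ℝ =>
      (∫ θ in (0:ℝ)..1, Jt f τ (θ • x (max τ t₀))) (x (max τ t₀))) volume s t :=
    (hB.clm_apply hxc).intervalIntegrable _ _
  rw [intervalIntegral.integral_eq_sub_of_hasDeriv_right_of_le hst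
    (hx.continuousOn.mono fun τ hτ => hs.trans hτ.1) ?_ hint]
  · abel
  · intro τ hτ
    have hτ0 : t₀ ≤ τ := hs.trans hτ.1.le
    have h3 := hx τ hτ0
    rw [apply_eq_integral hJ h1 h2 (ht₀.trans hτ0)] at h3
    simp only [max_eq_left hτ0]
    exact h3.mono (fun σ hσ => hτ0.trans (le_of_lt hσ))

/-- Attractivity. -/
theorem attractive (hJ : Continuous (Function.uncurry (Jt f))) (h1 : CondG1 f)
    (h2 : CondG2 f) (h3 : CondG3 f) {t₀ : ℝ} (ht₀ : 0 ≤ t₀) {x : ℝ → E}
    (hx : IsForwardSolution f t₀ x) : Tendsto x atTop (𝓝 0) := by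
  have hxc := hx.continuous_max
  set y : ℝ → E := fun t => x (max t t₀) with hy
  have hyx : ∀ t, t₀ ≤ t → y t = x t := fun t ht => by rw [hy]; simp only [max_eq_left ht]
  set F : ℝ → ℝ → E →L[ℝ] E := fun t θ => Jt f t (θ • y t) with hF
  have hFc : Continuous (Function.uncurry F) := by
    have h1 : Continuous (fun p : ℝ × ℝ => (p.1, p.2 • y p.1)) := by fun_prop
    exact hJ.comp h1
  set s : ℕ → ℝ := fun m => t₀ + m with hs
  have hs0 : s 0 = t₀ := by simp [hs]
  have hsmono : StrictMono s := by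
    intro m n hmn
    simp only [hs]
    have : (m : ℝ) < n := by exact_mod_cast hmn
    linarith
  have hslim : Tendsto s atTop atTop := by
    apply tendsto_atTop_add_const_left
    exact tendsto_natCast_atTop_atTop
  have hst : ∀ m, t₀ ≤ s m := fun m => by simp only [hs]; linarith [(Nat.cast_nonneg m : (0:ℝ) ≤ m)]
  -- bounds
  have hbd : ∀ m : ℕ, ∃ C : ℝ, 0 ≤ C ∧ ∀ t ∈ Icc t₀ (s m), ∀ θ ∈ Icc (0:ℝ) 1, ‖F t θ‖ ≤ C := by
    intro m
    have hK : IsCompact (Icc t₀ (s m) ×ˢ Icc (0:ℝ) 1) := isCompact_Icc.prod isCompact_Icc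
    obtain ⟨C0, hC0⟩ := hK.exists_bound_of_continuousOn hFc.continuousOn
    exact ⟨max C0 0, le_max_right _ _, fun t ht θ hθ =>
      (hC0 (t, θ) ⟨ht, hθ⟩).trans (le_max_left _ _)⟩
  choose C hC0 hC using hbd
  set G : ℕ → ℝ := fun m => Real.exp (C m * (s m - t₀)) with hG
  have hGpos : ∀ m, 0 < G m := fun m => Real.exp_pos _
  -- relaxation on each interval
  have hrel : ∀ m : ℕ, ∃ N : ℕ, 0 < N ∧ ∀ (A : ℝ → E →L[ℝ] E) (T : ℝ → ℝ → E →L[ℝ] E),
      IsEvolutionOperator A T →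
      (∀ t ∈ Ico (s m) (s (m + 1)),
        A t = Jt f t (Int.fract (N * (t - s m) / (s (m + 1) - s m)) • y t)) →
      ∀ t ∈ Icc (s m) (s (m + 1)), ‖T (s m) t (y t) - y (s m)‖ ≤ (1 / 2) ^ m / G m := by
    intro m
    apply relaxation hJ hxc (ht₀.trans (hst m)) (hsmono (Nat.lt_succ_self m)) _
      (by have := hGpos m; positivity)
    intro a ha b hb hab
    have ha' : t₀ ≤ a := (hst m).trans ha.1
    rw [hyx a ha', hyx b (ha'.trans hab)]
    exact sol_integral hJ h1 h2 ht₀ hx ha' hab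
  choose N hN hrelN using hrel
  -- the control
  set ω : ℝ → E := sawtooth s N (fun _ => y) with hω
  have hωpc : PiecewiseContinuous ω := piecewiseContinuous_sawtooth hsmono hslim N hN (fun _ => hxc)
  obtain ⟨-, K, γ, ε, hK, hε, hγ, -, T, hT, -, hbound, -⟩ := h3 ω hωpc
  set A : ℝ → E →L[ℝ] E := fun t => fderiv ℝ (f t) (ω t) with hA
  have hAeq : ∀ m, ∀ t ∈ Ico (s m) (s (m + 1)),
      A t = Jt f t (Int.fract (N m * (t - s m) / (s (m + 1) - s m)) • y t) := by
    intro m t ht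
    rw [hA]
    simp only
    rw [← Jt_eq f (ht₀.trans ((hst m).trans ht.1)), hω, sawtooth_eq hsmono N _ ht]
  have hfr : ∀ r : ℝ, Int.fract r ∈ Icc (0:ℝ) 1 := fun r =>
    ⟨Int.fract_nonneg r, (Int.fract_lt_one r).le⟩
  have hAC : ∀ m, ∀ t ∈ Ico t₀ (s m), ‖A t‖ ≤ C m := by
    intro m t ht
    obtain ⟨k, hk⟩ := exists_idx hslim (by rw [hs0]; exact ht.1 : s 0 ≤ t)
    rw [hAeq k t hk]
    exact hC m t ⟨ht.1, ht.2.le⟩ _ (hfr _)
  have hTG : ∀ m, ∀ v : E, ‖T t₀ (s m) v‖ ≤ G m * ‖v‖ := by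
    intro m v
    have := hT.norm_apply_bwd ht₀ (hC0 m) (hAC m) (s := s m) (t := t₀) le_rfl (hst m) le_rfl v
    rw [mul_comm] at this
    exact this
  set w : ℝ → E := fun t => T t₀ t (y t) with hw
  have hwinc : ∀ m, ∀ t ∈ Icc (s m) (s (m + 1)), ‖w t - w (s m)‖ ≤ (1 / 2) ^ m := by
    intro m t ht
    have htt : t₀ ≤ t := (hst m).trans ht.1
    have h4 : w t - w (s m) = T t₀ (s m) (T (s m) t (y t) - y (s m)) := by
      rw [hw]
      simp only
      rw [map_sub, hT.comp_apply (ht₀.trans htt) (ht₀.trans (hst m)) ht₀]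
    rw [h4]
    refine (hTG m _).trans ?_
    have h5 := hrelN m A T hT (hAeq m) t ht
    calc G m * ‖T (s m) t (y t) - y (s m)‖ ≤ G m * ((1 / 2) ^ m / G m) := by
          gcongr
      _ = (1 / 2) ^ m := by field_simp [(hGpos m).ne']
  have hws : ∀ m, ‖w (s m)‖ ≤ ‖x t₀‖ + 2 * (1 - (1 / 2) ^ m) := by
    intro m
    induction m with
    | zero =>
      rw [hs0, hw]
      simp [hT.self_apply ht₀, hyx t₀ le_rfl]
    | succ m ih =>
      have h4 := hwinc m (s (m + 1)) ⟨(hsmono (Nat.lt_succ_self m)).le, le_rfl⟩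
      have h5 : ‖w (s (m + 1))‖ ≤ ‖w (s (m + 1)) - w (s m)‖ + ‖w (s m)‖ := by
        have := norm_add_le (w (s (m + 1)) - w (s m)) (w (s m))
        simpa using this
      have h6 : (1 / 2 : ℝ) ^ (m + 1) = (1 / 2) ^ m / 2 := by rw [pow_succ]; ring
      rw [h6]
      linarith
  have hwt : ∀ t, t₀ ≤ t → ‖w t‖ ≤ ‖x t₀‖ + 3 := by
    intro t ht
    obtain ⟨m, hm⟩ := exists_idx hslim (by rw [hs0]; exact ht : s 0 ≤ t)
    have h4 := hwinc m t ⟨hm.1, hm.2.le⟩
    have h5 : ‖w t‖ ≤ ‖w t - w (s m)‖ + ‖w (s m)‖ := by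
      have := norm_add_le (w t - w (s m)) (w (s m))
      simpa using this
    have h6 := hws m
    have h7 : (0:ℝ) ≤ (1 / 2) ^ m := by positivity
    have h8 : (1 / 2 : ℝ) ^ m ≤ 1 := pow_le_one₀ (by norm_num) (by norm_num)
    linarith
  have hfinal : ∀ t, t₀ ≤ t →
      ‖x t‖ ≤ K * Real.exp (-γ * (t - t₀) + ε * t₀) * (‖x t₀‖ + 3) := by
    intro t ht
    have h4 : x t = T t t₀ (w t) := by
      rw [hw]
      simp only
      rw [hT.comp_apply (ht₀.trans ht) ht₀ (ht₀.trans ht), hT.self_apply (ht₀.trans ht),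
        hyx t ht]
    have h5 := hbound t₀ ht₀ t ht
    rw [ContinuousLinearMap.comp_id] at h5
    calc ‖x t‖ = ‖T t t₀ (w t)‖ := by rw [← h4]
      _ ≤ ‖T t t₀‖ * ‖w t‖ := (T t t₀).le_opNorm _
      _ ≤ _ := by gcongr; exact hwt t ht
  rw [tendsto_zero_iff_norm_tendsto_zero]
  have hlim : Tendsto (fun t : ℝ => K * Real.exp (-γ * (t - t₀) + ε * t₀) * (‖x t₀‖ + 3)) atTop
      (𝓝 0) := by
    have hγ0 : 0 < γ := by linarith
    have h4 : Tendsto (fun t : ℝ => -γ * (t - t₀) + ε * t₀) atTop atBot := by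
      apply tendsto_atBot_add_const_right
      apply Tendsto.const_mul_atTop_of_neg (by linarith)
      exact tendsto_atTop_add_const_right _ _ tendsto_id
    have h5 := Real.tendsto_exp_atBot.comp h4
    have h6 := (h5.const_mul K).mul_const (‖x t₀‖ + 3)
    simpa using h6
  apply squeeze_zero' (Eventually.of_forall fun t => norm_nonneg _) _ hlim
  filter_upwards [eventually_ge_atTop t₀] with t ht using hfinal t ht

end Pool.Agent.MarkusYamabe
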