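import Pool.Agent.MarkusYamabe.Averaging

open Set Filter Topology MeasureTheory intervalIntegral

namespace Pool.Agent.MarkusYamabe

theorem exists_cell {a h t : ℝ} (N : ℕ) (hN : 0 < N) (hat : a ≤ t) (htb : t ≤ a + N * h) :
    ∃ i : ℕ, i < N ∧ a + i * h ≤ t ∧ t ≤ a + (i + 1 : ℕ) * h := by
  induction N with
  | zero => exact absurd hN (lt_irrefl 0)
  | succ n ih =>
    rcases Nat.eq_zero_or_pos n with hn | hn
    · subst hn
      exact ⟨0, by omega, by simpa using hat, by simpa using htb⟩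
    · by_cases h1 : t ≤ a + n * h
      · obtain ⟨i, hi, h2, h3⟩ := ih hn h1
        exact ⟨i, by omega, h2, h3⟩
      · exact ⟨n, by omega, (not_le.1 h1).le, htb⟩

variable {E : Type*} [NormedAddCommGroup E] [NormedSpace ℝ E] [CompleteSpace E]

/-- The relaxation lemma on one interval. -/
theorem relaxation {J : ℝ → E → E →L[ℝ] E} (hJ : Continuous (Function.uncurry J))
    {x : ℝ → E} (hx : Continuous x) {a b : ℝ} (ha : 0 ≤ a) (hab : a < b)
    (hsol : ∀ s ∈ Icc a b, ∀ t ∈ Icc a b, s ≤ t →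
      x t = x s + ∫ τ in s..t, (∫ θ in (0:ℝ)..1, J τ (θ • x τ)) (x τ))
    {δ : ℝ} (hδ : 0 < δ) :
    ∃ N : ℕ, 0 < N ∧ ∀ (A : ℝ → E →L[ℝ] E) (T : ℝ → ℝ → E →L[ℝ] E),
      IsEvolutionOperator A T →
      (∀ t ∈ Ico a b, A t = J t (Int.fract (N * (t - a) / (b - a)) • x t)) →
      ∀ t ∈ Icc a b, ‖T a t (x t) - x a‖ ≤ δ := by
  set F : ℝ → ℝ → E →L[ℝ] E := fun t θ => J t (θ • x t) with hF
  have hFc : Continuous (Function.uncurry F) := by
    have h1 : Continuous (fun p : ℝ × ℝ => (p.1, p.2 • x p.1)) := by fun_prop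
    exact hJ.comp h1
  set B : ℝ → E →L[ℝ] E := fun t => ∫ θ in (0:ℝ)..1, F t θ with hB
  have hBc : Continuous B := continuous_average hFc
  -- constants
  have hK : IsCompact (Icc a b ×ˢ Icc (0:ℝ) 1) := isCompact_Icc.prod isCompact_Icc
  obtain ⟨C0, hC0⟩ := hK.exists_bound_of_continuousOn hFc.continuousOn
  obtain ⟨X0, hX0⟩ := (isCompact_Icc (a := a) (b := b)).exists_bound_of_continuousOn
    hx.continuousOn
  set C : ℝ := max C0 0 with hCdef
  set X : ℝ := max X0 0 with hXdef
  have hC : 0 ≤ C := le_max_right _ _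
  have hX : 0 ≤ X := le_max_right _ _
  have hFC : ∀ t ∈ Icc a b, ∀ θ ∈ Icc (0:ℝ) 1, ‖F t θ‖ ≤ C := fun t ht θ hθ =>
    (hC0 (t, θ) ⟨ht, hθ⟩).trans (le_max_left _ _)
  have hxX : ∀ t ∈ Icc a b, ‖x t‖ ≤ X := fun t ht => (hX0 t ht).trans (le_max_left _ _)
  have hBC : ∀ t ∈ Icc a b, ‖B t‖ ≤ C := by
    intro t ht
    have h1 := intervalIntegral.norm_integral_le_of_norm_le_const (a := 0) (b := 1)
      (f := fun θ => F t θ) (C := C) (by
        intro θ hθ
        rw [uIoc_of_le zero_le_one] at hθ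
        exact hFC t ht θ ⟨hθ.1.le, hθ.2⟩)
    simpa using h1
  set L : ℝ := b - a with hL
  have hLpos : 0 < L := by rw [hL]; linarith
  set M : ℝ := Real.exp (C * L) with hM
  have hMpos : 0 < M := Real.exp_pos _
  -- choice of ρ
  set ρ : ℝ := δ / (6 * M * L * (X + 1)) with hρdef
  have hρ : 0 < ρ := by positivity
  obtain ⟨h0, hh0, havg⟩ := averaging hFc a b hρ
  -- choice of N
  obtain ⟨N, hN⟩ := exists_nat_gt (max (L / h0) (max (L * (M * L * (2 * C ^ 2 * X * M)) / (δ / 3))
    (L * (M * (2 * C * X * M)) / (δ / 3))))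
  have hNpos : (0 : ℝ) < N := lt_of_le_of_lt (le_max_of_le_left (by positivity)) hN
  have hNpos' : 0 < N := by exact_mod_cast hNpos
  set h : ℝ := L / N with hh
  have hhpos : 0 < h := by positivity
  have hNh : N * h = L := by rw [hh]; field_simp
  have hhh0 : h ≤ h0 := by
    rw [hh, div_le_iff₀ hNpos]
    have := (lt_of_le_of_lt (le_max_left _ _) hN).le
    rw [div_le_iff₀ hh0] at this
    linarith
  have hh1 : M * L * (2 * C ^ 2 * X * M) * h ≤ δ / 3 := by
    have h1 := (lt_of_le_of_lt ((le_max_left _ _).trans (le_max_right _ _)) hN).le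
    rw [div_le_iff₀ (by positivity)] at h1
    rw [hh, mul_div_assoc', div_le_iff₀ hNpos]
    linarith
  have hh2 : M * (2 * C * X * M) * h ≤ δ / 3 := by
    have h1 := (lt_of_le_of_lt ((le_max_right _ _).trans (le_max_right _ _)) hN).le
    rw [div_le_iff₀ (by positivity)] at h1
    rw [hh, mul_div_assoc', div_le_iff₀ hNpos]
    linarith
  have hhL : h ≤ L := by
    rw [hh]
    exact div_le_self hLpos.le (by exact_mod_cast hNpos')
  refine ⟨N, hNpos', ?_⟩
  intro A T hT hA
  -- A is bounded by C on [a,b)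
  have hfr : ∀ r : ℝ, Int.fract r ∈ Icc (0:ℝ) 1 := fun r =>
    ⟨Int.fract_nonneg r, (Int.fract_lt_one r).le⟩
  have hAC : ∀ t ∈ Ico a b, ‖A t‖ ≤ C := by
    intro t ht
    rw [hA t ht]
    exact hFC t ⟨ht.1, ht.2.le⟩ _ (hfr _)
  -- cells
  have hcell_mem : ∀ i : ℕ, i ≤ N → a + i * h ∈ Icc a b := by
    intro i hi
    have h1 : (i : ℝ) * h ≤ L := by
      rw [← hNh]; gcongr
    have h2 : 0 ≤ (i : ℝ) * h := by positivity
    constructor
    · linarith
    · rw [hL] at h1; linarith
  -- on cell i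
  have hcellA : ∀ i : ℕ, i < N → ∀ t ∈ Ico (a + i * h) (a + (i + 1 : ℕ) * h),
      A t = F t ((t - (a + i * h)) / h) := by
    intro i hi t ht
    have hta : a ≤ t := (hcell_mem i hi.le).1.trans ht.1
    have htb : t < b := lt_of_lt_of_le ht.2 (hcell_mem (i + 1) hi).2
    rw [hA t ⟨hta, htb⟩]
    have h1 : (N : ℝ) * (t - a) / (b - a) = (t - (a + i * h)) / h + i := by
      rw [← hL]
      rw [hh]
      field_simp
      ring
    have h2 : Int.fract ((N : ℝ) * (t - a) / (b - a)) = (t - (a + i * h)) / h := by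
      rw [h1, Int.fract_add_natCast]
      rw [Int.fract_eq_self]
      constructor
      · exact div_nonneg (by linarith [ht.1]) hhpos.le
      · rw [div_lt_one hhpos]
        have := ht.2
        push_cast at this
        linarith
    rw [h2]
  have hexpbound : ∀ s ∈ Icc a b, ∀ v : E, ‖T a s v‖ ≤ M * ‖v‖ := by
    intro s hs v
    have h1 := hT.norm_apply_bwd ha hC hAC (s := s) (t := a) le_rfl hs.1 hs.2 v
    rw [mul_comm] at h1
    refine h1.trans ?_
    gcongr
    rw [hM]
    apply Real.exp_le_exp.2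
    gcongr
    rw [hL]; linarith [hs.2]
  -- estimate on one cell
  have hone : ∀ i : ℕ, i < N → ∀ t ∈ Icc (a + i * h) (a + (i + 1 : ℕ) * h),
      (‖x t - T t (a + i * h) (x (a + i * h))‖ ≤ 2 * C * X * M * h) ∧
      (t = a + (i + 1 : ℕ) * h →
        ‖x t - T t (a + i * h) (x (a + i * h))‖ ≤ 2 * ρ * h * X + 2 * C ^ 2 * X * M * h ^ 2) := by
    intro i hi
    set c : ℝ := a + i * h with hc
    have hc' : a + ((i + 1 : ℕ) : ℝ) * h = c + h := by rw [hc]; push_cast; ring
    rw [hc']
    have hcm : c ∈ Icc a b := hcell_mem i hi.le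
    have hcm' : c + h ∈ Icc a b := by rw [← hc']; exact hcell_mem (i + 1) hi
    have hc0 : 0 ≤ c := ha.trans hcm.1
    have hcch : c ≤ c + h := by linarith
    have hsubset : Icc c (c + h) ⊆ Icc a b := Icc_subset_Icc hcm.1 hcm'.2
    have hsubset0 : Icc c (c + h) ⊆ Ici 0 := fun τ hτ => hc0.trans hτ.1
    set Ai : ℝ → E →L[ℝ] E := fun t => F t ((t - c) / h) with hAi
    have hAic : Continuous Ai := by
      have : Continuous (fun t : ℝ => (t, (t - c) / h)) := by fun_prop
      exact hFc.comp this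
    have hAiC : ∀ t ∈ Icc c (c + h), ‖Ai t‖ ≤ C := by
      intro t ht
      refine hFC t (hsubset ht) _ ⟨div_nonneg (by linarith [ht.1]) hhpos.le, ?_⟩
      rw [div_le_one hhpos]; linarith [ht.2]
    have hBiC : ∀ t ∈ Icc c (c + h), ‖B t‖ ≤ C := fun t ht => hBC t (hsubset ht)
    have hxi : ∀ t ∈ Icc c (c + h), x t = x c + ∫ τ in c..t, B τ (x τ) := fun t ht =>
      hsol c hcm t (hsubset ht) ht.1
    have hyc : ContinuousOn (fun t => T t c (x c)) (Icc c (c + h)) :=
      (hT.cont hc0 (x c)).mono hsubset0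
    have hyi : ∀ t ∈ Icc c (c + h), T t c (x c) = x c + ∫ τ in c..t, Ai τ (T τ c (x c)) := by
      intro t ht
      have h1 := hT.eqn hc0 (x c) hc0 (hsubset0 ht)
      rw [hT.self_apply hc0] at h1
      rw [h1]
      congr 1
      apply intervalIntegral.integral_congr_ae
      have hne : ∀ᵐ τ : ℝ, τ ≠ c + h := by
        simp [ae_iff, measure_singleton]
      filter_upwards [hne] with τ hτne hτ
      rw [uIoc_of_le ht.1] at hτ
      rw [hcellA i hi τ ⟨hτ.1.le, by
        rw [hc']
        exact lt_of_le_of_ne (hτ.2.trans ht.2) hτne⟩]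
    have hxXi : ∀ t ∈ Icc c (c + h), ‖x t‖ ≤ X := fun t ht => hxX t (hsubset ht)
    have hMle : Real.exp (C * (c + h - c)) ≤ M := by
      rw [hM, add_sub_cancel_left]
      apply Real.exp_le_exp.2
      gcongr
    have hyi' : ∀ t ∈ Icc c (c + h), (fun t => T t c (x c)) t =
        x c + ∫ τ in c..t, Ai τ ((fun t => T t c (x c)) τ) := hyi
    intro t ht
    constructor
    · have h1 := cell_estimate_crude hC hX hAiC hBiC hyc hxi hyi' hxXi ht
      refine h1.trans ?_
      rw [add_sub_cancel_left]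
      rw [add_sub_cancel_left] at hMle
      gcongr
    · intro hteq
      subst hteq
      have h1 := cell_estimate hcch hC hX hAic hBc hAiC hBiC hx.continuousOn hyc hxi hyi' hxXi
      refine h1.trans ?_
      have h2 := havg c h hcm.1 hhpos hhh0 hcm'.2
      have h3 : ‖∫ τ in c..(c + h), (B τ - Ai τ)‖ ≤ 2 * ρ * h := h2
      rw [add_sub_cancel_left]
      rw [add_sub_cancel_left] at hMle
      gcongr
  -- induction over cells
  set e : ℝ := 2 * ρ * h * X + 2 * C ^ 2 * X * M * h ^ 2 with he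
  have he0 : 0 ≤ e := by rw [he]; positivity
  have hind : ∀ i : ℕ, i ≤ N → ‖T a (a + i * h) (x (a + i * h)) - x a‖ ≤ i * (M * e) := by
    intro i
    induction i with
    | zero =>
      intro _
      simp [hT.self_apply ha]
    | succ i ih =>
      intro hi
      have hi' : i < N := hi
      have hci := hcell_mem i hi'.le
      have hci1 := hcell_mem (i + 1) hi
      have h1 := ih hi'.le
      have h2 := (hone i hi' (a + (i + 1 : ℕ) * h) ⟨by
        push_cast; linarith, le_rfl⟩).2 rfl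
      have h3 : T a (a + (i + 1 : ℕ) * h) (x (a + (i + 1 : ℕ) * h)) -
          T a (a + i * h) (x (a + i * h)) =
          T a (a + (i + 1 : ℕ) * h) (x (a + (i + 1 : ℕ) * h) -
            T (a + (i + 1 : ℕ) * h) (a + i * h) (x (a + i * h))) := by
        rw [map_sub, hT.comp_apply (ha.trans hci.1) (ha.trans hci1.1) ha]
      have h4 : ‖T a (a + (i + 1 : ℕ) * h) (x (a + (i + 1 : ℕ) * h)) -
          T a (a + i * h) (x (a + i * h))‖ ≤ M * e := by
        rw [h3]
        refine (hexpbound _ hci1 _).trans ?_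
        gcongr
      calc ‖T a (a + (i + 1 : ℕ) * h) (x (a + (i + 1 : ℕ) * h)) - x a‖
          = ‖(T a (a + (i + 1 : ℕ) * h) (x (a + (i + 1 : ℕ) * h)) -
              T a (a + i * h) (x (a + i * h))) + (T a (a + i * h) (x (a + i * h)) - x a)‖ := by
            congr 1; abel
        _ ≤ M * e + i * (M * e) := (norm_add_le _ _).trans (add_le_add h4 h1)
        _ = (i + 1 : ℕ) * (M * e) := by push_cast; ring
  have hNe : (N : ℝ) * (M * e) ≤ 2 * δ / 3 := by
    have h1 : (N : ℝ) * (M * e) = M * L * (2 * ρ * X) + M * L * (2 * C ^ 2 * X * M) * h := by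
      rw [he, ← hNh]; ring
    have h2 : M * L * (2 * ρ * X) ≤ δ / 3 := by
      rw [hρdef]
      rw [show M * L * (2 * (δ / (6 * M * L * (X + 1))) * X) = δ / 3 * (X / (X + 1)) by
        field_simp; ring]
      have : X / (X + 1) ≤ 1 := by
        rw [div_le_one (by positivity)]; linarith
      nlinarith
    rw [h1]
    linarith
  intro t ht
  have htb' : t ≤ a + N * h := by rw [hNh, hL]; linarith [ht.2]
  obtain ⟨i, hi, hit, hti⟩ := exists_cell N hNpos' ht.1 htb'
  have hci := hcell_mem i hi.le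
  have h1 := (hone i hi t ⟨hit, hti⟩).1
  have h3 : T a t (x t) - T a (a + i * h) (x (a + i * h)) =
      T a t (x t - T t (a + i * h) (x (a + i * h))) := by
    rw [map_sub, hT.comp_apply (ha.trans hci.1) (ha.trans ht.1) ha]
  have h4 : ‖T a t (x t) - T a (a + i * h) (x (a + i * h))‖ ≤ δ / 3 := by
    rw [h3]
    refine (hexpbound _ ht _).trans ?_
    refine le_trans ?_ hh2
    calc M * ‖x t - T t (a + i * h) (x (a + i * h))‖ ≤ M * (2 * C * X * M * h) := by gcongr
      _ = M * (2 * C * X * M) * h := by ring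
  have h5 := hind i hi.le
  have h6 : (i : ℝ) * (M * e) ≤ 2 * δ / 3 := by
    refine le_trans ?_ hNe
    gcongr
  calc ‖T a t (x t) - x a‖ = ‖(T a t (x t) - T a (a + i * h) (x (a + i * h))) +
        (T a (a + i * h) (x (a + i * h)) - x a)‖ := by congr 1; abel
    _ ≤ δ / 3 + 2 * δ / 3 := (norm_add_le _ _).trans (add_le_add h4 (h5.trans h6))
    _ = δ := by ring

end Pool.Agent.MarkusYamabe
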