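import Pool.Agent.MarkusYamabe.Defs
import Pool.Agent.MarkusYamabe.JointCont
import Pool.Agent.MarkusYamabe.Gronwall

/-! Sanity checks: the hypotheses are satisfied by `f(t,x) = -x`, and the conclusion fails for
`f(t,x) = x`. -/

open Set Filter Topology MeasureTheory intervalIntegral

namespace Pool.Agent.MarkusYamabe

/-- evolution operator of `y' = c y` on `ℝ`. -/
theorem isEvolutionOperator_const (c : ℝ) :
    IsEvolutionOperator (E := ℝ) (fun _ => c • ContinuousLinearMap.id ℝ ℝ)
      (fun t s => Real.exp (c * (t - s)) • ContinuousLinearMap.id ℝ ℝ) := by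
  have hsol : ∀ s v : ℝ, IsLinearSolution (E := ℝ) (fun _ => c • ContinuousLinearMap.id ℝ ℝ)
      (fun t => (Real.exp (c * (t - s)) • ContinuousLinearMap.id ℝ ℝ) v) := by
    intro s v
    constructor
    · apply Continuous.continuousOn
      simp only [ContinuousLinearMap.smul_apply, ContinuousLinearMap.id_apply, smul_eq_mul]
      fun_prop
    · intro r _ t _
      have hd : ∀ τ : ℝ, HasDerivAt (fun τ => Real.exp (c * (τ - s)) * v)
          (c * (Real.exp (c * (τ - s)) * v)) τ := by
        intro τ
        have h1 : HasDerivAt (fun τ : ℝ => c * (τ - s)) (c * 1) τ :=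
          ((hasDerivAt_id τ).sub_const s).const_mul c
        have h2 := (h1.exp).mul_const v
        have h3 : Real.exp (c * (τ - s)) * (c * 1) * v = c * (Real.exp (c * (τ - s)) * v) := by ring
        rw [h3] at h2
        exact h2
      have h3 := intervalIntegral.integral_eq_sub_of_hasDerivAt (a := r) (b := t)
        (fun τ _ => hd τ) (Continuous.intervalIntegrable (by fun_prop) _ _)
      simp only [ContinuousLinearMap.smul_apply, ContinuousLinearMap.id_apply, smul_eq_mul]
      rw [h3]
      ring
  refine ⟨?_, fun s _ v => hsol s v, ?_⟩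
  · intro s _
    simp
  · intro y hy s hs t ht
    -- uniqueness: difference z = y - T(.,s) y(s) solves the equation and vanishes at s
    have hz := hsol s (y s)
    set z : ℝ → ℝ := fun τ => y τ - (Real.exp (c * (τ - s)) • ContinuousLinearMap.id ℝ ℝ) (y s)
      with hzdef
    have hzc : ContinuousOn z (Ici 0) := hy.1.sub hz.1
    have hzs : z s = 0 := by simp [hzdef]
    have hzeq : ∀ r, 0 ≤ r → z r = ∫ τ in s..r, c * z τ := by
      intro r hr
      have h1 := hy.2 s hs r hr
      have h2 := hz.2 s hs r hr
      have hsub : uIcc s r ⊆ Ici 0 := fun τ hτ => by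
        have := hτ.1
        exact (le_min hs hr).trans this
      have hi1 : IntervalIntegrable (fun τ => c * y τ) volume s r :=
        ((hy.1.mono hsub).intervalIntegrable).const_mul c
      have hi2 : IntervalIntegrable
          (fun τ => c * ((Real.exp (c * (τ - s)) • ContinuousLinearMap.id ℝ ℝ) (y s))) volume s r :=
        ((hz.1.mono hsub).intervalIntegrable).const_mul c
      have hz' : (fun τ => c * z τ) = fun τ => c * y τ -
          c * ((Real.exp (c * (τ - s)) • ContinuousLinearMap.id ℝ ℝ) (y s)) := by
        funext τ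
        simp only [hzdef, mul_sub]
      rw [hz', intervalIntegral.integral_sub hi1 hi2]
      simp only [hzdef]
      simp only [ContinuousLinearMap.smul_apply, ContinuousLinearMap.id_apply, smul_eq_mul,
        sub_self, mul_zero, Real.exp_zero, one_mul] at h1 h2 ⊢
      linarith
    have hzero : z t = 0 := by
      rcases le_total s t with hst | hst
      · have h4 := gronwall_fwd (y := z) (a := s) (b := t) (c := 0) (K := |c|) (abs_nonneg _)
          (hzc.mono fun τ hτ => hs.trans hτ.1) (by
            intro r hr
            rw [zero_add]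
            conv_lhs => rw [hzeq r (hs.trans hr.1)]
            rw [intervalIntegral.integral_const_mul, norm_mul, Real.norm_eq_abs]
            gcongr
            exact intervalIntegral.norm_integral_le_integral_norm hr.1) t ⟨hst, le_rfl⟩
        rw [zero_mul] at h4
        exact norm_le_zero_iff.1 h4
      · have h4 := gronwall_bwd (y := z) (a := t) (b := s) (c := 0) (K := |c|) (abs_nonneg _)
          (hzc.mono fun τ hτ => ht.trans hτ.1) (by
            intro r hr
            rw [zero_add]
            conv_lhs => rw [hzeq r (ht.trans hr.1)]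
            rw [intervalIntegral.integral_const_mul, norm_mul, Real.norm_eq_abs,
              intervalIntegral.integral_symm, norm_neg]
            gcongr
            exact intervalIntegral.norm_integral_le_integral_norm hr.2) t ⟨le_rfl, hst⟩
        rw [zero_mul] at h4
        exact norm_le_zero_iff.1 h4
    have := sub_eq_zero.1 hzero
    exact this

/-- (G1), (G2), (G3) hold for `f(t,x) = -x` on `ℝ`. -/
theorem neg_satisfies : CondG1 (fun _ x : ℝ => -x) ∧ CondG2 (fun _ x : ℝ => -x) ∧
    CondG3 (fun _ x : ℝ => -x) := by
  refine ⟨⟨?_, ?_, ?_⟩, ?_, ?_⟩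
  · apply Continuous.continuousOn
    have : Function.uncurry (fun _ x : ℝ => -x) = fun p : ℝ × ℝ => -p.2 := rfl
    rw [this]; fun_prop
  · intro t _; exact contDiff_neg
  · intro t₀ _ x₀
    refine ⟨fun t => Real.exp (-(t - t₀)) * x₀, by simp, ?_⟩
    intro t _
    apply HasDerivAt.hasDerivWithinAt
    have h1 : HasDerivAt (fun τ : ℝ => -(τ - t₀)) (-1) t :=
      ((hasDerivAt_id t).sub_const t₀).neg
    have h2 := (h1.exp).mul_const x₀
    have h3 : Real.exp (-(t - t₀)) * -1 * x₀ = -(Real.exp (-(t - t₀)) * x₀) := by ring
    rw [h3] at h2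
    exact h2
  · intro t _; simp
  · intro ω _
    have hfd : (fun t => fderiv ℝ (fun x : ℝ => -x) (ω t)) =
        fun _ => (-1 : ℝ) • ContinuousLinearMap.id ℝ ℝ := by
      funext t
      rw [fderiv_fun_neg]
      ext
      simp
    simp only [hfd]
    refine ⟨piecewiseContinuous_of_continuous continuous_const, 1, 1, 0, le_rfl, le_rfl,
      zero_lt_one, ?_, _, isEvolutionOperator_const (-1), ?_, ?_, ?_⟩
    · intro t _; rfl
    · intro t _ s _; rfl
    · intro s _ t hst
      rw [ContinuousLinearMap.comp_id, norm_smul, ContinuousLinearMap.norm_id]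
      simp
    · intro t _ s _
      rw [sub_self, ContinuousLinearMap.comp_zero, norm_zero]
      positivity

/-- The conclusion fails for `f(t,x) = x`. -/
theorem id_not_stable : ¬ GloballyNonuniformlyAsymptoticallyStable (fun _ x : ℝ => x) := by
  intro h
  have hsol : IsForwardSolution (fun _ x : ℝ => x) 0 Real.exp := fun t _ =>
    (Real.hasDerivAt_exp t).hasDerivWithinAt
  have h1 := (h 0 le_rfl).2 Real.exp hsol
  exact not_tendsto_nhds_of_tendsto_atTop Real.tendsto_exp_atTop 0 h1

end Pool.Agent.MarkusYamabe
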